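import Mathlib

/-!
# Paths of steps `P 1`, `P 1 - D` which avoid cells
-/

namespace Pool.Agent.H81.HP

theorem self_dvd (N x : ℤ) : N ∣ x - x := ⟨0, by ring⟩
theorem add_dvd' (N x : ℤ) : N ∣ x + N - x := ⟨1, by ring⟩
theorem sub_dvd' (N x : ℤ) : N ∣ x - N - x := ⟨-1, by ring⟩

/-- upper bound of the path -/
theorem pathU {N D v H : ℤ} {k : ℕ} {P : ℕ → ℤ} (D0 : 0 < D)
    (st : ∀ ρ, P (ρ + 1) = P ρ + P 1 ∨ P (ρ + 1) = P ρ + P 1 - D)
    (h1 : P 1 ≤ v + H) (hN : v + 2 * H ≤ N)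
    (J5 : ∀ (ρ : ℕ) (V : ℤ), 1 ≤ ρ → ρ ≤ k → N ∣ V - P ρ → -H < V → V ≤ v → False) :
    ∀ ρ, 1 ≤ ρ → ρ ≤ k → P ρ ≤ N - H := by
  intro ρ hρ
  induction ρ, hρ using Nat.le_induction with
  | base => intro _; linarith
  | succ ρ hρ ih =>
    intro hk
    have i1 := ih (by omega)
    by_contra hc
    push Not at hc
    refine J5 (ρ + 1) (P (ρ + 1) - N) (by omega) hk (sub_dvd' _ _) (by linarith) ?_
    rcases st ρ with h | h <;> rw [h] <;> linarith

/-- `0 < v`, flat -/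
theorem pathJ {N D v H : ℤ} {k : ℕ} {P : ℕ → ℤ} (D0 : 0 < D) (D1 : D < H) (v0 : 0 < v)
    (st : ∀ ρ, P (ρ + 1) = P ρ + P 1 ∨ P (ρ + 1) = P ρ + P 1 - D)
    (h0 : v < P 1) (h1 : P 1 ≤ v + H) (hN : v + 2 * H ≤ N)
    (J5 : ∀ (ρ : ℕ) (V : ℤ), 1 ≤ ρ → ρ ≤ k → N ∣ V - P ρ → -H < V → V ≤ v → False) :
    ∀ ρ, 1 ≤ ρ → ρ ≤ k → v < P ρ ∧ P ρ ≤ N - H := by
  intro ρ hρ
  induction ρ, hρ using Nat.le_induction with
  | base => intro hk; exact ⟨h0, by linarith⟩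
  | succ ρ hρ ih =>
    intro hk
    have i1 := ih (by omega)
    refine ⟨?_, pathU D0 st h1 hN J5 (ρ + 1) (by omega) hk⟩
    by_contra hc
    push Not at hc
    refine J5 (ρ + 1) (P (ρ + 1)) (by omega) hk (self_dvd _ _) ?_ hc
    rcases st ρ with h | h <;> rw [h] <;> linarith

/-- `0 < v`, high -/
theorem pathI {N D c s v H : ℤ} {h w σ : ℕ} {P : ℕ → ℤ} (D0 : 0 < D) (D1 : D < H)
    (c0 : 0 < c) (s0 : 0 < s) (s1 : s < H) (hv : v = c + s) (hvH : v < H) (N3 : 3 * H ≤ N)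
    (w2 : 1 < w) (σ1 : 1 ≤ σ)
    (st : ∀ ρ, P (ρ + 1) = P ρ + P 1 ∨ P (ρ + 1) = P ρ + P 1 - D)
    (n0 : v - H < P 1) (n1 : P 1 ≤ N + v - H)
    (A1 : ∀ (ρ : ℕ) (V : ℤ), 1 ≤ ρ → ρ < w → N ∣ V - P ρ → v < V → V ≤ N + v - H → False)
    (A2a : ∀ (ρ : ℕ) (V : ℤ), w ≤ ρ → ρ ≤ σ → N ∣ V - P ρ → -H < V → V ≤ v - H → False)
    (A2b : ∀ (ρ : ℕ) (V : ℤ), w ≤ ρ → ρ ≤ σ → N ∣ V - P ρ → H < V → V ≤ v + H → False)
    (A3 : ∀ (ρ : ℕ) (V : ℤ), σ < ρ → ρ ≤ h → N ∣ V - P ρ → v + H < V → V ≤ N → False)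
    (A4 : ∀ V : ℤ, N ∣ V - (D - P 1) → v < V → V ≤ N + c - H → False) :
    ∀ ρ, 1 ≤ ρ → ρ ≤ h → v - H < P ρ ∧ P ρ ≤ v + H ∧ (ρ < w → P ρ ≤ v) ∧ (ρ ≤ σ → P ρ ≤ H) ∧
      (σ < ρ → 0 < P ρ) := by
  have u1 : P 1 ≤ v := by
    by_contra hc
    push Not at hc
    exact A1 1 (P 1) le_rfl (by omega) (self_dvd _ _) hc n1
  have u2 : D - P 1 ≤ v := by
    by_contra hc
    push Not at hc
    exact A4 (D - P 1) (self_dvd _ _) hc (by linarith)
  intro ρ hρ
  induction ρ, hρ using Nat.le_induction with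
  | base =>
    intro _
    exact ⟨n0, by linarith, fun _ => u1, fun _ => by linarith, fun h => by omega⟩
  | succ ρ hρ ih =>
    intro hk
    obtain ⟨i1, i2, i3, i4, i5⟩ := ih (by omega)
    have b : P ρ - v ≤ P (ρ + 1) ∧ P (ρ + 1) ≤ P ρ + v := by
      rcases st ρ with h | h <;> rw [h] <;> constructor <;> linarith
    have pos : σ < ρ + 1 → v - 2 * H < P (ρ + 1) → 0 < P (ρ + 1) := by
      intro h1 h2
      by_contra hc
      push Not at hc
      exact A3 (ρ + 1) (P (ρ + 1) + N) h1 hk (add_dvd' _ _) (by linarith) (by linarith)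
    rcases Nat.lt_or_ge (ρ + 1) w with h1 | h1
    · have j3 := i3 (by omega)
      have k1 : P (ρ + 1) ≤ v := by
        by_contra hc
        push Not at hc
        exact A1 (ρ + 1) (P (ρ + 1)) (by omega) h1 (self_dvd _ _) hc (by linarith)
      have k2 : v - H < P (ρ + 1) := by
        by_contra hc
        push Not at hc
        exact A1 (ρ + 1) (P (ρ + 1) + N) (by omega) h1 (add_dvd' _ _) (by linarith) (by linarith)
      exact ⟨k2, by linarith, fun _ => k1, fun _ => by linarith,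
        fun h => pos h (by linarith)⟩
    · rcases Nat.lt_or_ge σ (ρ + 1) with h2 | h2
      · have k1 : 0 < P (ρ + 1) := pos h2 (by linarith)
        refine ⟨by linarith, ?_, fun h => by omega, fun h => by omega, fun _ => k1⟩
        by_contra hc
        push Not at hc
        exact A3 (ρ + 1) (P (ρ + 1)) h2 hk (self_dvd _ _) hc (by linarith)
      · have j4 := i4 (by omega)
        have k1 : v - H < P (ρ + 1) := by
          by_contra hc
          push Not at hc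
          exact A2a (ρ + 1) (P (ρ + 1)) h1 h2 (self_dvd _ _) (by linarith) hc
        have k2 : P (ρ + 1) ≤ H := by
          by_contra hc
          push Not at hc
          exact A2b (ρ + 1) (P (ρ + 1)) h1 h2 (self_dvd _ _) hc (by linarith)
        exact ⟨k1, by linarith, fun h => by omega, fun _ => k2, fun h => by omega⟩

/-- `v < 0`, `0 < P 1` -/
theorem pathB {N D c s v H W : ℤ} {h w τ : ℕ} {P : ℕ → ℤ} (D0 : 0 < D) (D1 : D < H)
    (c0 : 0 < c) (c1 : c < W) (s0 : s < 0) (s1 : -H < s) (hv : v = c + s) (v0 : v < 0)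
    (WH : W ≤ H) (N3 : 3 * H ≤ N) (w2 : 1 < w)
    (st : ∀ ρ, P (ρ + 1) = P ρ + P 1 ∨ P (ρ + 1) = P ρ + P 1 - D)
    (n0 : 0 < P 1) (n1 : P 1 ≤ v + H)
    (B1 : ∀ (ρ : ℕ) (V : ℤ), 1 ≤ ρ → ρ < w → N ∣ V - P ρ → v + H < V → V ≤ N + v → False)
    (B2 : ∀ (ρ : ℕ) (V : ℤ), w ≤ ρ → ρ ≤ τ → N ∣ V - P ρ → c + H < V → V ≤ N + v → False)
    (B3 : ∀ (ρ : ℕ) (V : ℤ), τ < ρ → ρ < τ + w → N ∣ V - P ρ → c + H < V → V ≤ N → False)
    (B4 : ∀ (ρ : ℕ) (V : ℤ), τ + w ≤ ρ → ρ ≤ h → N ∣ V - P ρ → -H < V → V ≤ 0 → False) :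
    ∀ ρ, 1 ≤ ρ → ρ ≤ h → v < P ρ ∧ (ρ < τ + w → P ρ ≤ c + H) ∧ (τ < ρ → 0 < P ρ) := by
  intro ρ hρ
  induction ρ, hρ using Nat.le_induction with
  | base => intro _; exact ⟨by linarith, fun _ => by linarith, fun _ => n0⟩
  | succ ρ hρ ih =>
    intro hk
    obtain ⟨i1, i2, i3⟩ := ih (by omega)
    have b : P ρ - D < P (ρ + 1) ∧ P (ρ + 1) ≤ P ρ + v + H := by
      rcases st ρ with h | h <;> rw [h] <;> constructor <;> linarith
    have pos : τ < ρ + 1 → ρ + 1 < τ + w → 0 < P (ρ + 1) := by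
      intro h1 h2
      by_contra hc
      push Not at hc
      exact B3 (ρ + 1) (P (ρ + 1) + N) h1 h2 (add_dvd' _ _) (by linarith) (by linarith)
    rcases Nat.lt_or_ge (ρ + 1) (τ + w) with h1 | h1
    · have j2 := i2 (by omega)
      rcases Nat.lt_or_ge (ρ + 1) w with h2 | h2
      · have k1 : v < P (ρ + 1) := by
          by_contra hc
          push Not at hc
          exact B1 (ρ + 1) (P (ρ + 1) + N) (by omega) h2 (add_dvd' _ _) (by linarith)
            (by linarith)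
        have k2 : P (ρ + 1) ≤ v + H := by
          by_contra hc
          push Not at hc
          exact B1 (ρ + 1) (P (ρ + 1)) (by omega) h2 (self_dvd _ _) hc (by linarith)
        exact ⟨k1, fun _ => by linarith, fun h => pos h h1⟩
      · rcases Nat.lt_or_ge τ (ρ + 1) with h3 | h3
        · have k1 := pos h3 h1
          refine ⟨by linarith, fun _ => ?_, fun _ => k1⟩
          by_contra hc
          push Not at hc
          exact B3 (ρ + 1) (P (ρ + 1)) h3 h1 (self_dvd _ _) hc (by linarith)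
        · have k1 : v < P (ρ + 1) := by
            by_contra hc
            push Not at hc
            exact B2 (ρ + 1) (P (ρ + 1) + N) h2 h3 (add_dvd' _ _) (by linarith)
              (by linarith)
          refine ⟨k1, fun _ => ?_, fun h => by omega⟩
          by_contra hc
          push Not at hc
          exact B2 (ρ + 1) (P (ρ + 1)) h2 h3 (self_dvd _ _) hc (by linarith)
    · have j3 := i3 (by omega)
      have k1 : 0 < P (ρ + 1) := by
        by_contra hc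
        push Not at hc
        exact B4 (ρ + 1) (P (ρ + 1)) h1 hk (self_dvd _ _) (by linarith) hc
      exact ⟨by linarith, fun h => by omega, fun _ => k1⟩

/-- `v < 0`, `P 1 ≤ 0` -/
theorem pathC {N D c s v H W : ℤ} {w τ : ℕ} {P : ℕ → ℤ} (D0 : 0 < D) (D1 : D < H)
    (c0 : 0 < c) (c1 : c < W) (s0 : s < 0) (s1 : -H < s) (hv : v = c + s) (v0 : v < 0)
    (WH : W ≤ H) (N3 : 3 * H ≤ N) (w2 : 1 < w) (τ1 : 1 ≤ τ)
    (st : ∀ ρ, P (ρ + 1) = P ρ + P 1 ∨ P (ρ + 1) = P ρ + P 1 - D)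
    (n0 : v < P 1) (n1 : P 1 ≤ 0)
    (B1 : ∀ (ρ : ℕ) (V : ℤ), 1 ≤ ρ → ρ < w → N ∣ V - P ρ → v + H < V → V ≤ N + v → False)
    (B2 : ∀ (ρ : ℕ) (V : ℤ), w ≤ ρ → ρ ≤ τ → N ∣ V - P ρ → c + H < V → V ≤ N + v → False)
    (B3 : ∀ (ρ : ℕ) (V : ℤ), τ < ρ → ρ < τ + w → N ∣ V - P ρ → c + H < V → V ≤ N → False)
    (B6 : v ≤ P 1 → P 1 ≤ -1 → N - H + s ≤ D - P 1 → False) : False := by
  have u : D - P 1 < N - H + s := by
    by_contra hc
    push Not at hc
    rcases lt_or_eq_of_le n1 with h | h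
    · exact B6 n0.le (by omega) hc
    · rw [h] at hc; linarith
  have low : ∀ ρ, v < P ρ → c + H < P (ρ + 1) + N := by
    intro ρ h
    rcases st ρ with h1 | h1 <;> rw [h1] <;> linarith
  have up : ∀ ρ, P ρ ≤ 0 → P (ρ + 1) ≤ 0 := by
    intro ρ h
    rcases st ρ with h1 | h1 <;> rw [h1] <;> linarith
  have key : ∀ ρ, 1 ≤ ρ → ρ ≤ τ → v < P ρ ∧ P ρ ≤ 0 := by
    intro ρ hρ
    induction ρ, hρ using Nat.le_induction with
    | base => intro _; exact ⟨n0, n1⟩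
    | succ ρ hρ ih =>
      intro hk
      obtain ⟨i1, i2⟩ := ih (by omega)
      have l := low ρ i1
      refine ⟨?_, up ρ i2⟩
      by_contra hc
      push Not at hc
      rcases Nat.lt_or_ge (ρ + 1) w with h2 | h2
      · exact B1 (ρ + 1) (P (ρ + 1) + N) (by omega) h2 (add_dvd' _ _) (by linarith) (by linarith)
      · exact B2 (ρ + 1) (P (ρ + 1) + N) h2 hk (add_dvd' _ _) l (by linarith)
  obtain ⟨i1, i2⟩ := key τ τ1 le_rfl
  have := up τ i2
  exact B3 (τ + 1) (P (τ + 1) + N) (by omega) (by omega) (add_dvd' _ _) (low τ i1) (by linarith)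

end Pool.Agent.H81.HP
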