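import Pool.Agent.H78.HL.CaseR
import Pool.Agent.H81.HP.Path

/-!
# The classes row by row
-/

namespace Pool.Agent.H81.HP

open Pool.Agent.H78.RT
open Pool.Agent.H78.Tie
open Pool.Agent.H78.Tie.TAp

variable {A : TAp} {T : A.Tie}

/-- the class in the row `ρ` -/
def rc (A : TAp) (ρ : ℤ) : ℤ := A.e' * ρ % A.p

/-- `L` is the slope -/
def Slope (A : TAp) (L : ℤ) : Prop :=
  ∀ i U S a, Rec A i U S a → NN A ∣ U + S - a - L * S

theorem slope (A : TAp) : ∃ L, Slope A L := by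
  obtain ⟨κ, hκ⟩ := th_mod A 1
  obtain ⟨y, hy⟩ := A.inv
  refine ⟨κ * A.e' + 1, ?_⟩
  rintro i U S a ⟨⟨x, hx⟩, ⟨s, hs, z, hz⟩, h3⟩
  have ha : a = th A i := Rec.th ⟨⟨x, hx⟩, ⟨s, hs, z, hz⟩, h3⟩
  have hi : th A i = i * th A 1 := by rw [← th_mul, mul_one]
  refine ⟨κ * (z * A.e' - i * y) - x, ?_⟩
  rw [ha, hi, hs]
  unfold NN at *
  linear_combination i * hκ - hx + A.q * κ * A.e' * hz - A.q * κ * i * hy

theorem slope_shift {L : ℤ} (h : Slope A L) (z : ℤ) : Slope A (L + z * A.p) := by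
  intro i U S a hr
  obtain ⟨s, hs, -⟩ := hr.2.1
  obtain ⟨y, hy⟩ := h i U S a hr
  refine ⟨y - z * s, ?_⟩
  rw [hs] at hy ⊢
  unfold NN at *
  linear_combination hy

/-- the slope with `P 1` in a given interval -/
theorem slope_in (A : TAp) (lo : ℤ) : ∃ L, Slope A L ∧ lo < th A (rc A 1) + L * A.q ∧
    th A (rc A 1) + L * A.q ≤ lo + NN A := by
  obtain ⟨L, hL⟩ := slope A
  have hN := NN_pos A
  set x := th A (rc A 1) + L * A.q - lo - 1
  have e := Int.emod_add_mul_ediv x (NN A)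
  have r0 := Int.emod_nonneg x hN.ne'
  have r1 := Int.emod_lt_of_pos x hN
  refine ⟨L + -(x / NN A) * A.p, slope_shift hL _, ?_, ?_⟩
  · have : th A (rc A 1) + (L + -(x / NN A) * A.p) * A.q = x % NN A + lo + 1 := by
      have : NN A = A.p * A.q := rfl
      rw [this] at e ⊢
      linear_combination -e
    rw [this]; omega
  · have : th A (rc A 1) + (L + -(x / NN A) * A.p) * A.q = x % NN A + lo + 1 := by
      have : NN A = A.p * A.q := rfl
      rw [this] at e ⊢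
      linear_combination -e
    rw [this]; omega

theorem rc_bd (A : TAp) (ρ : ℤ) : 0 ≤ rc A ρ ∧ rc A ρ < A.p :=
  ⟨Int.emod_nonneg _ A.p_pos'.ne', Int.emod_lt_of_pos _ A.p_pos'⟩

theorem rc_row (A : TAp) (ρ : ℤ) : (A.p : ℤ) ∣ A.e * rc A ρ - ρ := by
  obtain ⟨y, hy⟩ := A.inv
  have e := Int.emod_add_mul_ediv (A.e' * ρ) A.p
  refine ⟨ρ * y - A.e * (A.e' * ρ / A.p), ?_⟩
  unfold rc
  linear_combination A.e * e + ρ * hy

theorem rc_pos {ρ : ℤ} (h : ¬ (A.p : ℤ) ∣ ρ) : 0 < rc A ρ := by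
  have h1 := rc_row A ρ
  have h0 := (rc_bd A ρ).1
  rcases lt_or_eq_of_le h0 with h2 | h2
  · exact h2
  · exfalso
    apply h
    rw [← h2, mul_zero, zero_sub, dvd_neg] at h1
    exact h1

/-- the class in the row `ρ` with its lifts -/
theorem fam {L ρ V : ℤ} (hL : Slope A L) (h : ¬ (A.p : ℤ) ∣ ρ)
    (hV : NN A ∣ V - (th A (rc A ρ) + L * (A.q * ρ))) :
    IsC A (rc A ρ) (V - A.q * ρ) (A.q * ρ) (th A (rc A ρ)) := by
  have h0 := rc_pos h
  have h1 := (rc_bd A ρ).2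
  refine ⟨Rec.of ?_ (rc_row A ρ), h0, h1⟩
  have r : Rec A (rc A ρ) (A.a * rc A ρ) (A.q * ρ) (th A (rc A ρ)) :=
    Rec.of ⟨0, by ring⟩ (rc_row A ρ)
  have h2 := dvd_sub (hL _ _ _ _ r) hV
  rwa [show A.a * rc A ρ + A.q * ρ - th A (rc A ρ) - L * (A.q * ρ) -
    (V - (th A (rc A ρ) + L * (A.q * ρ))) = A.a * rc A ρ - (V - A.q * ρ) by ring] at h2

theorem two_cases {p x : ℤ} (h : p ∣ x) (h0 : -(2 * p) < x) (h1 : x < p) : x = 0 ∨ x = -p := by
  obtain ⟨z, rfl⟩ := h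
  have hp : 0 < p := by
    by_contra hc
    push Not at hc
    linarith
  have z1 : z < 1 := by
    by_contra hc
    push Not at hc
    have := mul_le_mul_of_nonneg_left hc hp.le
    linarith
  have z2 : -2 < z := by
    by_contra hc
    push Not at hc
    have := mul_le_mul_of_nonneg_left hc hp.le
    linarith
  have : z = 0 ∨ z = -1 := by omega
  rcases this with rfl | rfl
  · left; ring
  · right; ring

theorem th_step (A : TAp) (ρ : ℤ) :
    th A (rc A (ρ + 1)) = th A (rc A ρ) + th A (rc A 1) ∨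
    th A (rc A (ρ + 1)) = th A (rc A ρ) + th A (rc A 1) - A.D := by
  have e0 := Int.emod_add_mul_ediv (A.e' * ρ) A.p
  have e1 := Int.emod_add_mul_ediv (A.e' * 1) A.p
  have e2 := Int.emod_add_mul_ediv (A.e' * (ρ + 1)) A.p
  have b0 := rc_bd A ρ
  have b1 := rc_bd A 1
  have b2 := rc_bd A (ρ + 1)
  have h : (A.p : ℤ) ∣ rc A (ρ + 1) - rc A ρ - rc A 1 := by
    refine ⟨A.e' * ρ / A.p + A.e' * 1 / A.p - A.e' * (ρ + 1) / A.p, ?_⟩
    unfold rc
    linear_combination e2 - e1 - e0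
  rcases two_cases h (by linarith) (by linarith) with h1 | h1
  · left
    rw [← th_add]
    congr 1
    linarith
  · right
    have : th A A.p = A.D := th_p A
    rw [← this, ← th_add, ← th_sub]
    congr 1
    linarith

theorem th_neg_row (A : TAp) : th A (rc A (-1)) = A.D - th A (rc A 1) := by
  have p4 : (4 : ℤ) ≤ A.p := by have := A.w2; have := A.hw; omega
  have n1 : ¬ (A.p : ℤ) ∣ 1 := by
    intro h
    have := Int.le_of_dvd (by norm_num) h
    omega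
  have n2 : ¬ (A.p : ℤ) ∣ -1 := by rwa [dvd_neg]
  have b1 := rc_bd A 1
  have b2 := rc_bd A (-1)
  have c1 := rc_pos n1
  have c2 := rc_pos n2
  have e1 := Int.emod_add_mul_ediv (A.e' * 1) A.p
  have e2 := Int.emod_add_mul_ediv (A.e' * (-1)) A.p
  have h : (A.p : ℤ) ∣ -(rc A (-1) + rc A 1) := by
    refine ⟨A.e' * 1 / A.p + A.e' * (-1) / A.p, ?_⟩
    unfold rc
    linear_combination - e2 - e1
  rcases two_cases h (by linarith) (by linarith) with h1 | h1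
  · omega
  · have : th A A.p = A.D := th_p A
    rw [← this, ← th_sub]
    congr 1
    linarith

/-- the path -/
noncomputable def PP (A : TAp) (L : ℤ) (ρ : ℕ) : ℤ := th A (rc A ρ) + L * (A.q * (ρ : ℤ))

theorem PP_one (A : TAp) (L : ℤ) : PP A L 1 = th A (rc A 1) + L * A.q := by
  unfold PP; push_cast; ring

theorem PP_step (A : TAp) (L : ℤ) (ρ : ℕ) : PP A L (ρ + 1) = PP A L ρ + PP A L 1 ∨
    PP A L (ρ + 1) = PP A L ρ + PP A L 1 - A.D := by
  rw [PP_one]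
  unfold PP
  push_cast
  rcases th_step A ρ with h | h <;> rw [h]
  · left; ring
  · right; ring

theorem nd_nat {ρ : ℕ} (h0 : 1 ≤ ρ) (h1 : ρ < A.p) : ¬ (A.p : ℤ) ∣ (ρ : ℤ) := by
  intro h
  have := Int.le_of_dvd (by exact_mod_cast h0) h
  omega

/-- the class of a point of the path -/
theorem PP_cls {L : ℤ} (hL : Slope A L) {ρ : ℕ} (h0 : 1 ≤ ρ) (h1 : ρ < A.p) {V : ℤ}
    (hV : NN A ∣ V - PP A L ρ) :
    IsC A (rc A ρ) (V - A.q * ρ) (A.q * ρ) (th A (rc A ρ)) :=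
  fam hL (nd_nat h0 h1) hV

theorem neg_cls {L : ℤ} (hL : Slope A L) {V : ℤ} (hV : NN A ∣ V - (A.D - PP A L 1)) :
    IsC A (rc A (-1)) (V - A.q * (-1)) (A.q * (-1)) (th A (rc A (-1))) := by
  have p4 : (4 : ℤ) ≤ A.p := by have := A.w2; have := A.hw; omega
  refine fam hL ?_ ?_
  · intro h
    rw [dvd_neg] at h
    have := Int.le_of_dvd (by norm_num) h
    omega
  · rw [th_neg_row]
    rwa [PP_one, show V - (A.D - (th A (rc A 1) + L * A.q)) =
      V - (A.D - th A (rc A 1) + L * (A.q * -1)) by ring] at hV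

theorem PP_th {ρ : ℕ} (h0 : 1 ≤ ρ) (h1 : ρ < A.p) :
    0 < th A (rc A ρ) ∧ th A (rc A ρ) < A.D :=
  ⟨th_pos A (rc_pos (nd_nat h0 h1)), th_ltD A (rc_bd A ρ).2⟩

end Pool.Agent.H81.HP
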