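import Pool.Agent.H81.HP.Mn
import Pool.Agent.H81.HP.Fam

/-!
# Tall rectangles, `D < H`, main range: `V ≡ θ` for every class; case R is impossible
-/

namespace Pool.Agent.H81.HP

open Pool.Agent.H78.RT
open Pool.Agent.H78.Tie
open Pool.Agent.H78.Tie.TAp
open Pool.Agent.H78.SV
open Pool.Agent.H78.HL (TL OV FT CR Opp W_le_D)

variable {A : TAp} {T : A.Tie} {n U S c s : ℤ}

/-- the main range of the row of `n` -/
def Main (T : A.Tie) (U S : ℤ) : Prop :=
  (0 < U + S ∧ (T.ep = -1 → 0 < S ∧ S < A.q * A.h - A.q * A.w)) ∨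
  (U + S < 0 ∧ S < 0 ∧ (T.ep = -1 → A.q * A.w - A.q * A.h ≤ S) ∧
    (T.ep = 1 → A.q * A.w - A.q * A.h < S))

theorem MN.row (h : MN T n U S) : ∃ z : ℤ, S = A.q * z := by
  obtain ⟨s, hs, -⟩ := h.o.cn.1.2.1
  exact ⟨s, hs⟩

theorem MN.W (h : MN T n U S) : (A.q : ℤ) * A.w ≤ A.q * A.h :=
  mul_le_mul_of_nonneg_left (by have := h.tl.hw; have := abs_nonneg T.x; omega) A.q_pos'.le

theorem L01 {L θ D H v : ℤ} (t0 : 0 < θ) (t1 : θ < D) (hD : D < H) (v1 : v < H)
    (h0 : 0 < θ + L * H) (h1 : θ + L * H ≤ v + H) : L = 0 ∨ L = 1 := by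
  have a : -1 < L := by
    by_contra hc
    push Not at hc
    have := mul_le_mul_of_nonneg_right hc (show (0 : ℤ) ≤ H by linarith)
    linarith
  have b : L < 2 := by
    by_contra hc
    push Not at hc
    have := mul_le_mul_of_nonneg_right hc (show (0 : ℤ) ≤ H by linarith)
    linarith
  omega

/-- case `I` -/
theorem resI (h : MN T n U S) (e : EI T U S c s) (v0 : 0 < c + s) :
    ∃ L, Slope A L ∧ (L = 0 ∨ L = 1) := by
  have hq := A.q_pos'
  have hq6 := q6 A
  have hw2 : 1 < A.w := by have := A.hw; omega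
  have hWq := W2 A
  obtain ⟨z, hz⟩ := h.row
  have V1 := h.o.V1
  obtain ⟨σ, hσ, c0, s0, s1, hv1⟩ : ∃ σ : ℕ, s = A.q * (σ : ℤ) ∧ 0 < c ∧
      0 < s ∧ s < A.q * A.h ∧ c + s < A.q * A.h := by
    rcases e with ⟨he, rfl, rfl, m1, m2⟩ | ⟨he, rfl, rfl, m1⟩
    · obtain ⟨u1, u2⟩ := h.um he
      have z0 : 0 ≤ z := by
        by_contra hc
        have := mul_le_mul_of_nonneg_left (show z ≤ -1 by omega) hq.le
        linarith
      exact ⟨z.toNat, by rw [Int.toNat_of_nonneg z0]; exact hz, by linarith, by linarith,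
        by linarith, V1⟩
    · obtain ⟨u1, u2⟩ := h.up he
      have z0 : 0 ≤ z - A.w := by
        by_contra hc
        have := mul_le_mul_of_nonneg_left (show z - A.w ≤ -1 by omega) hq.le
        linarith
      refine ⟨(z - A.w).toNat, by rw [Int.toNat_of_nonneg z0]; linarith, by linarith,
        by linarith, by linarith, by linarith⟩
  have σ1 : 1 ≤ σ := by
    by_contra hc
    have : σ = 0 := by omega
    rw [this] at hσ
    norm_num at hσ
    omega
  obtain ⟨L, hL, l0, l1⟩ := slope_in A (c + s - A.q * A.h)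
  refine ⟨L, hL, ?_⟩
  have h2w := A.w2
  have h2h := A.h2
  have σh : σ < A.h := by
    have : (A.q : ℤ) * σ < A.q * A.h := by linarith
    have := lt_of_mul_lt_mul_left this hq.le
    omega
  have mq : ∀ {a b : ℤ}, a ≤ b → (A.q : ℤ) * a ≤ A.q * b :=
    fun h => mul_le_mul_of_nonneg_left h hq.le
  have key := pathI (N := NN A) (D := A.D) (c := c) (s := s) (v := c + s) (H := A.q * A.h)
    (h := A.h) (w := A.w) (σ := σ) (P := PP A L) (D_pos A) h.hD c0 s0 s1 rfl
    hv1 h.hN hw2 σ1 (PP_step A L) (by rw [PP_one]; linarith) (by rw [PP_one]; linarith)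
    (by
      intro ρ V a b hV h0 h1
      refine A1 h e v0 (PP_cls hL a (by omega) hV) ?_ ?_ h0 (by linarith)
      · have := mq (show (1 : ℤ) ≤ ρ by omega); linarith
      · have := mq (show (ρ : ℤ) + 1 ≤ A.w by omega); linarith)
    (by
      intro ρ V a b hV h0 h1
      refine A2a h e v0 (PP_cls hL (by omega) (by omega) hV) ?_ ?_ h0 h1
      · exact mq (by omega)
      · rw [hσ]; exact mq (by omega))
    (by
      intro ρ V a b hV h0 h1
      refine A2b h e v0 (PP_cls hL (by omega) (by omega) hV) ?_ ?_ h0 h1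
      · exact mq (by omega)
      · rw [hσ]; exact mq (by omega))
    (by
      intro ρ V a b hV h0 h1
      refine A3 h e v0 (PP_cls hL (by omega) (by omega) hV) ?_ ?_ h0 h1
      · rw [hσ]; have := mq (show (σ : ℤ) + 1 ≤ ρ by omega); linarith
      · exact mq (by omega))
    (by
      intro V hV h0 h1
      exact A4 h e v0 (neg_cls hL hV) (by ring) h0 h1)
    A.h (by have := A.hh; omega) le_rfl
  obtain ⟨-, k2, -, -, k5⟩ := key
  obtain ⟨t0, t1⟩ := PP_th (A := A) (ρ := A.h) (by have := A.hh; omega) (by omega)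
  exact L01 t0 t1 h.hD hv1 (k5 σh) k2

theorem L01' {L θ D H N s v : ℤ} (t0 : 0 < θ) (t1 : θ < D) (hD : D < H) (N3 : 3 * H ≤ N)
    (s1 : -H < s) (v0 : 0 < v) (h0 : v < θ + L * (N - H + s)) (h1 : θ + L * (N - H + s) ≤ N - H) :
    L = 0 ∨ L = 1 := by
  have a : -1 < L := by
    by_contra hc
    push Not at hc
    have := mul_le_mul_of_nonneg_right hc (show (0 : ℤ) ≤ N - H + s by linarith)
    linarith
  have b : L < 2 := by
    by_contra hc
    push Not at hc
    have := mul_le_mul_of_nonneg_right hc (show (0 : ℤ) ≤ N - H + s by linarith)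
    linarith
  omega

/-- case `J` -/
theorem resJ (h : MN T n U S) (e : EJ T U S c s) (v0 : 0 < c + s) :
    ∃ L, Slope A L ∧ (L = 0 ∨ L = 1) := by
  have hq := A.q_pos'
  have hq6 := q6 A
  have hWq := W2 A
  have hw2 := A.hw
  have hW := h.W
  have hN := h.hN
  have hD := h.hD
  obtain ⟨z, hz⟩ := h.row
  have V1 := h.o.V1
  have h2w := A.w2
  have h2h := A.h2
  have mq : ∀ {a b : ℤ}, a ≤ b → (A.q : ℤ) * a ≤ A.q * b :=
    fun h => mul_le_mul_of_nonneg_left h hq.le
  have eN : NN A = A.q * A.p := by unfold NN; ring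
  obtain ⟨k, hk, s1, vH, k1, kp⟩ : ∃ k : ℕ, (A.q : ℤ) * k = NN A - A.q * A.h + s ∧
      -(A.q * A.h : ℤ) < s ∧ c + s < A.q * A.h ∧ 1 ≤ k ∧ k < A.p := by
    obtain ⟨he, rfl, rfl, m1, m2⟩ := e
    obtain ⟨u1, u2⟩ := h.up he
    have z0 : -(A.h : ℤ) < z - A.w := by
      by_contra hc
      have := mq (show z - A.w ≤ -A.h by omega)
      linarith
    have z1 : z - A.w ≤ 0 := by
      by_contra hc
      have := mq (show 1 ≤ z - A.w by omega)
      linarith
    refine ⟨(A.p - A.h + (z - A.w) : ℤ).toNat, ?_, by linarith, by linarith, by omega, by omega⟩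
    rw [Int.toNat_of_nonneg (by omega), eN, hz]; ring
  obtain ⟨L, hL, l0, l1⟩ := slope_in A (c + s)
  refine ⟨L, hL, ?_⟩
  have u1 : PP A L 1 ≤ c + s + A.q * A.h := by
    by_contra hc
    push Not at hc
    refine J1 h e v0 (PP_cls hL le_rfl (by omega) (self_dvd _ _)) ?_ ?_ hc ?_
    · push_cast; linarith
    · push_cast; linarith
    · rw [PP_one]; linarith
  have key := pathJ (N := NN A) (D := A.D) (v := c + s) (H := A.q * A.h) (k := k) (P := PP A L)
    (D_pos A) hD v0 (PP_step A L) (by rw [PP_one]; exact l0) u1 (by linarith)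
    (by
      intro ρ V a b hV h0 h1
      refine J5 h e v0 (PP_cls hL a (by omega) hV) ?_ ?_ h0 h1
      · have := mq (show (1 : ℤ) ≤ ρ by omega); linarith
      · rw [← hk]; exact mq (by omega))
    k k1 le_rfl
  obtain ⟨t0, t1⟩ := PP_th (A := A) k1 kp
  unfold PP at key
  rw [hk] at key
  exact L01' t0 t1 hD hN s1 v0 key.1 key.2

/-- case `B` -/
theorem resB (h : MN T n U S) (e : EB T U S c s) (v0 : c + s < 0) :
    ∃ L, Slope A L ∧ (L = 0 ∨ L = 1) := by
  have hq := A.q_pos'
  have hq6 := q6 A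
  have hWq := W2 A
  have hw2 := A.hw
  have hW := h.W
  have hN := h.hN
  have hD := h.hD
  obtain ⟨z, hz⟩ := h.row
  have V0 := h.o.V0
  have h2w := A.w2
  have h2h := A.h2
  have mq : ∀ {a b : ℤ}, a ≤ b → (A.q : ℤ) * a ≤ A.q * b :=
    fun h => mul_le_mul_of_nonneg_left h hq.le
  have eN : NN A = A.q * A.p := by unfold NN; ring
  obtain ⟨k, τ, hk, hτ, s0, s1, c0, c1, vH, k1, kp, τ1, τh⟩ : ∃ k τ : ℕ,
      (A.q : ℤ) * k = NN A - A.q * A.h + s ∧ (A.q : ℤ) * τ = A.q * A.h + s ∧ s < 0 ∧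
      -(A.q * A.h : ℤ) < s ∧ 0 < c ∧ c < A.q * A.w ∧ -(A.q * A.h : ℤ) < c + s ∧
      1 ≤ k ∧ k < A.p ∧ 1 ≤ τ ∧ τ < A.h := by
    rcases e with ⟨he, rfl, rfl, m1, m2⟩ | ⟨he, rfl, rfl, m1, m2⟩
    · obtain ⟨u1, u2⟩ := h.um he
      have z0 : -(A.h : ℤ) < z := by
        by_contra hc
        have := mq (show z ≤ -A.h by omega)
        linarith
      have z1 : z < 0 := by
        by_contra hc
        have := mq (show 0 ≤ z by omega)
        linarith
      refine ⟨(A.p - A.h + z : ℤ).toNat, (A.h + z : ℤ).toNat, ?_, ?_, by linarith, by linarith,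
        by linarith, by linarith, by linarith, by omega, by omega, by omega, by omega⟩
      · rw [Int.toNat_of_nonneg (by omega), eN, hz]; ring
      · rw [Int.toNat_of_nonneg (by omega), hz]; ring
    · obtain ⟨u1, u2⟩ := h.up he
      have z0 : -(A.h : ℤ) < z - A.w := by
        by_contra hc
        have := mq (show z - A.w ≤ -A.h by omega)
        linarith
      have z1 : z - A.w < 0 := by
        by_contra hc
        have := mq (show 0 ≤ z - A.w by omega)
        linarith
      refine ⟨(A.p - A.h + (z - A.w) : ℤ).toNat, (A.h + (z - A.w) : ℤ).toNat, ?_, ?_,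
        by linarith, by linarith, by linarith, by linarith, by linarith, by omega, by omega,
        by omega, by omega⟩
      · rw [Int.toNat_of_nonneg (by omega), eN, hz]; ring
      · rw [Int.toNat_of_nonneg (by omega), hz]; ring
  obtain ⟨L, hL, l0, l1⟩ := slope_in A (c + s)
  refine ⟨L, hL, ?_⟩
  have u1 : PP A L 1 ≤ c + s + A.q * A.h := by
    by_contra hc
    push Not at hc
    refine B1 h e v0 (PP_cls hL le_rfl (by omega) (self_dvd _ _)) ?_ ?_ hc ?_
    · push_cast; linarith
    · push_cast; linarith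
    · rw [PP_one]; linarith
  have key := pathU (N := NN A) (D := A.D) (v := c + s) (H := A.q * A.h) (k := k) (P := PP A L)
    (D_pos A) (PP_step A L) u1 (by linarith)
    (by
      intro ρ V a b hV h0 h1
      refine B5 h e v0 (PP_cls hL a (by omega) hV) ?_ ?_ h0 h1
      · have := mq (show (1 : ℤ) ≤ ρ by omega); linarith
      · rw [← hk]; exact mq (by omega))
    k k1 le_rfl
  obtain ⟨t0, t1⟩ := PP_th (A := A) k1 kp
  unfold PP at key
  rw [hk] at key
  have b : L < 2 := by
    by_contra hc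
    push Not at hc
    have := mul_le_mul_of_nonneg_right hc (show (0 : ℤ) ≤ NN A - A.q * A.h + s by linarith)
    linarith
  have cB1 : ∀ (ρ : ℕ) (V : ℤ), 1 ≤ ρ → ρ < A.w → NN A ∣ V - PP A L ρ →
      c + s + A.q * A.h < V → V ≤ NN A + (c + s) → False := by
    intro ρ V a b hV h0 h1
    refine B1 h e v0 (PP_cls hL a (by omega) hV) ?_ ?_ h0 h1
    · have := mq (show (1 : ℤ) ≤ ρ by omega); linarith
    · have := mq (show (ρ : ℤ) + 1 ≤ A.w by omega); linarith
  have cB2 : ∀ (ρ : ℕ) (V : ℤ), A.w ≤ ρ → ρ ≤ τ → NN A ∣ V - PP A L ρ →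
      c + A.q * A.h < V → V ≤ NN A + (c + s) → False := by
    intro ρ V a b hV h0 h1
    refine B2 h e v0 (PP_cls hL (by omega) (by omega) hV) ?_ ?_ h0 h1
    · exact mq (by omega)
    · rw [← hτ]; exact mq (by omega)
  have cB3 : ∀ (ρ : ℕ) (V : ℤ), τ < ρ → ρ < τ + A.w → NN A ∣ V - PP A L ρ →
      c + A.q * A.h < V → V ≤ NN A → False := by
    intro ρ V a b hV h0 h1
    refine B3 h e v0 (PP_cls hL (by omega) (by omega) hV) ?_ ?_ h0 h1
    · have := mq (show (τ : ℤ) + 1 ≤ ρ by omega); linarith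
    · have := mq (show (ρ : ℤ) + 1 ≤ τ + A.w by omega); linarith
  have cB4 : ∀ (ρ : ℕ) (V : ℤ), τ + A.w ≤ ρ → ρ ≤ A.h → NN A ∣ V - PP A L ρ →
      -(A.q * A.h : ℤ) < V → V ≤ 0 → False := by
    intro ρ V a b hV h0 h1
    refine B4 h e v0 (PP_cls hL (by omega) (by omega) hV) ?_ ?_ h0 h1
    · have := mq (show (τ : ℤ) + A.w ≤ ρ by omega); linarith
    · exact mq (by omega)
  have hw3 : 1 < A.w := by omega
  have a : -1 < L := by
    by_contra hc
    push Not at hc
    rcases lt_or_ge 0 (PP A L 1) with hp | hp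
    · have k2 := pathB (N := NN A) (D := A.D) (c := c) (s := s) (v := c + s) (H := A.q * A.h)
        (W := A.q * A.w) (h := A.h) (w := A.w) (τ := τ) (P := PP A L) (D_pos A) hD c0 c1 s0 s1
        rfl v0 hW hN hw3 (PP_step A L) hp u1 cB1 cB2 cB3 cB4 A.h (by omega) le_rfl
      have k3 := k2.2.2 τh
      obtain ⟨t2, t3⟩ := PP_th (A := A) (ρ := A.h) (by omega) (by omega)
      unfold PP at k3
      have := mul_le_mul_of_nonneg_right hc (show (0 : ℤ) ≤ A.q * A.h by linarith)
      linarith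
    · refine pathC (N := NN A) (D := A.D) (c := c) (s := s) (v := c + s) (H := A.q * A.h)
        (W := A.q * A.w) (w := A.w) (τ := τ) (P := PP A L) (D_pos A) hD c0 c1 s0 s1
        rfl v0 hW hN hw3 τ1 (PP_step A L) (by rw [PP_one]; exact l0) hp cB1 cB2 cB3 ?_
      intro h0 h1 h2
      exact B6 h e v0 (PP_cls hL le_rfl (by omega) (self_dvd _ _)) (by push_cast; ring) h0 h1 h2
  omega

theorem not_one (h : MN T n U S) (hL : Slope A 1) : False := by
  have hN := h.hN
  have hD := h.hD
  have hW := h.W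
  have hWq := W2 A
  have hq6 := q6 A
  have hD0 := D_pos A
  rcases T.hep with he | he
  · obtain ⟨u1, u2⟩ := h.up he
    have h1 := hL _ _ _ _ h.o.cn.1
    rw [show U + S - th A n - 1 * S = U - th A n by ring] at h1
    have t0 := th_pos A h.o.cn.2.1
    have t1 := th_ltD A h.o.cn.2.2
    have := Int.eq_zero_of_abs_lt_dvd h1 (by rw [abs_lt]; constructor <;> linarith)
    linarith
  · have h1 := hL _ _ _ _ (Rec.tie T)
    rw [he] at h1
    have t0 := th_pos A T.t0
    have t1 := th_ltD A T.tp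
    have hs : -1 ≤ A.sg ∧ A.sg ≤ 1 := by rcases A.hsg with h | h <;> rw [h] <;> norm_num
    rw [show -1 * (A.q * A.w + A.sg) + A.q * (-1 * (T.x - A.w)) - th A T.t -
      1 * (A.q * (-1 * (T.x - A.w))) = -(A.q * A.w + A.sg + th A T.t) by ring, dvd_neg] at h1
    have := Int.eq_zero_of_abs_lt_dvd h1 (by rw [abs_lt]; constructor <;> linarith)
    linarith

/-- `V ≡ θ` for every class -/
theorem path (h : MN T n U S) (m : Main T U S) : ∀ i U' S' a, Rec A i U' S' a →
    NN A ∣ U' + S' - a := by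
  have hq := A.q_pos'
  obtain ⟨z, hz⟩ := h.row
  have key : ∃ L, Slope A L ∧ (L = 0 ∨ L = 1) := by
    have pq : ∀ {y : ℤ}, 0 < (A.q : ℤ) * y → (A.q : ℤ) ≤ A.q * y := by
      intro y hy
      have := (mul_pos_iff_of_pos_left hq).1 hy
      have := mul_le_mul_of_nonneg_left (show (1 : ℤ) ≤ y by omega) hq.le
      linarith
    rcases m with ⟨v0, m1⟩ | ⟨v0, s0, m1, m2⟩
    · rcases T.hep with he | he
      · obtain ⟨u1, u2⟩ := h.up he
        have s0 : 0 < S := by linarith
        rcases lt_or_ge 0 (S - A.q * A.w) with h1 | h1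
        · refine resI h (c := U + A.q * A.w) (s := S - A.q * A.w)
            (Or.inr ⟨he, rfl, rfl, ?_⟩) (by linarith)
          rw [hz, ← mul_sub] at h1 ⊢
          exact pq h1
        · refine resJ h (c := U + A.q * A.w) (s := S - A.q * A.w)
            ⟨he, rfl, rfl, h1, ?_⟩ (by linarith)
          rw [hz] at s0 ⊢
          exact pq s0
      · obtain ⟨s0, m1⟩ := m1 he
        refine resI h (c := U) (s := S) (Or.inl ⟨he, rfl, rfl, ?_, ?_⟩) v0
        · rw [hz] at s0 ⊢
          exact pq s0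
        · have h1 : 0 < (A.q : ℤ) * (A.h - A.w - z) := by
            rw [mul_sub, mul_sub, ← hz]; linarith
          have := pq h1
          rw [mul_sub, mul_sub, ← hz] at this
          linarith
    · rcases T.hep with he | he
      · refine resB h (c := U + A.q * A.w) (s := S - A.q * A.w)
          (Or.inr ⟨he, rfl, rfl, ?_, ?_⟩) (by linarith)
        · have m2 := m2 he
          have h1 : 0 < (A.q : ℤ) * (z - A.w + A.h) := by
            rw [mul_add, mul_sub, ← hz]; linarith
          have := pq h1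
          rw [mul_add, mul_sub, ← hz] at this
          linarith
        · have h1 : 0 < (A.q : ℤ) * (-z) := by rw [mul_neg, ← hz]; linarith
          have := pq h1
          rw [mul_neg, ← hz] at this
          linarith
      · refine resB h (c := U) (s := S) (Or.inl ⟨he, rfl, rfl, m1 he, ?_⟩) v0
        have h1 : 0 < (A.q : ℤ) * (-z) := by rw [mul_neg, ← hz]; linarith
        have := pq h1
        rw [mul_neg, ← hz] at this
        linarith
  obtain ⟨L, hL, rfl | rfl⟩ := key
  · intro i U' S' a hr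
    have := hL i U' S' a hr
    rwa [zero_mul, sub_zero] at this
  · exact (not_one h hL).elim

/-- case R is impossible -/
theorem caseR_false (h : MN T n U S) (mm : Main T U S) (P : Opp T) {g m d Sg : ℤ}
    (c : CR T n U S g m d Sg) : False := by
  obtain ⟨⟨Sg', cg, v0, v1⟩, -, -⟩ := c.size h.tl P
  have h1 := path h mm _ _ _ _ cg.1
  have t0 := th_pos A cg.2.1
  have t1 := th_ltD A cg.2.2
  have hN := h.hN
  have hD := h.hD
  have := Int.eq_zero_of_abs_lt_dvd h1 (by rw [abs_lt]; constructor <;> linarith)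
  linarith

end Pool.Agent.H81.HP
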