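import Pool.Agent.H78.SV.Dat

/-!
# Static data of the trees for single ties, without a sign of `x`
-/

namespace Pool.Agent.H81.HP

open Pool.Agent.H78.RT
open Pool.Agent.H78.SV
open Pool.Agent.H81.AP (LF)

/-- the inequalities which always hold -/
def GZ (sg ep : Int) : List LF :=
  [[0, 0, 0, 1, 0, 1, 0, -1],
   [0, 0, 0, 1, 0, -1, 0, -1],
   [-1, 0, 0, 0, 1, 0, -1],
   [-(ep * sg), 0, 0, 0, 0, 0, 1, -1],
   [-2, 1, 0, 0, -2, 0, 0, 1],
   [0, 1, 0, -2, 0, 0, 0, -1],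
   [0, 1, -2, 0, 0, 0, 0, -1],
   [0, 0, 0, 1, 0, 0, 0, -2],
   [0, 0, 1, 0, 0, 0, 0, -2],
   [-6, 0, 0, 0, 0, 0, 0, 1]]

/-- static data of a tree: extra classes `J`, extra inequalities `g`, nonzero forms `ne`,
multiples of `q` : `la` -/
def mkZ (sp ep : Bool) (J : List LR) (g ne la : List LF) : Dat where
  sp := sp
  ov := false
  L := bT ep
  R := bT (!ep)
  B := rT (sgv sp) (sgv ep) :: (J ++ [rP])
  C := rT (sgv sp) (sgv ep) :: J
  N := ne
  O := la.map fun F => [F, ngq F]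
  E := []
  G := g ++ GZ (sgv sp) (sgv ep)

end Pool.Agent.H81.HP
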