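import Pool.Agent.H81.LT.Base
import Pool.Agent.H81.HP.Dat

/-!
# Two general classes: interface
-/

namespace Pool.Agent.H81.HP

open Pool.Agent.H78.RT
open Pool.Agent.H78.Tie
open Pool.Agent.H78.Tie.TAp
open Pool.Agent.H78.SV
open Pool.Agent.H81.LT (fnil fcons exK)
open Pool.Agent.H81.AP (LF dot dot_nil dot_nil' dot_cons AllNn AllNe)
open Pool.Agent.H23.DT (AllNn.append AllB.append AllC.toB)

variable {A : TAp} {T : A.Tie} {n j U S a V R b : ℤ}

theorem G {sx : ℤ} (hsx : sx = 1 ∨ sx = -1) (d : ST A T sx) {sp ep : Bool} (hsg : A.sg = sgv sp)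
    (hep : T.ep = sgv ep) (r : List ℤ) : AllNn (env A T r) (GZ (sgv sp) (sgv ep)) := by
  obtain ⟨f1, f2, f3, f4, f5, f6, f7, f8, f9, f10⟩ := d.facts
  rw [hsg, hep] at f7
  unfold env GZ
  simp only [AllNn, dot_cons, dot_nil, mul_one]
  rcases hsx with h | h <;> rw [h] at f9 f10 <;>
    refine ⟨?_, ?_, ?_, ?_, ?_, ?_, ?_, ?_, ?_, ?_, trivial⟩ <;> linarith

/-- a checked tree for single ties -/
theorem run0 {sx : ℤ} (hsx : sx = 1 ∨ sx = -1) (d : ST A T sx) {sp ep : Bool}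
    (hsg : A.sg = sgv sp) (hep : T.ep = sgv ep)
    {J : List LR} {g ne la : List LF} {r : List ℤ} (hJ : AllC A (env A T r) J)
    (hg : AllNn (env A T r) g) (hne : AllNe (env A T r) ne)
    (hla : ∀ F ∈ la, (A.q : ℤ) ∣ dot F (1 :: env A T r))
    {t : Pool.Agent.H78.RT.T} (h : (mkZ sp ep J g ne la).chk t = true) : False := by
  have rt := Rec.tie T
  rw [hep, hsg] at rt
  refine Pool.Agent.H78.RT.run d.F (ruleF d.F T d.hs) (mkZ sp ep J g ne la) (v := env A T r)
    ⟨_, rfl⟩ (by rw [hsg]; cases sp <;> rfl)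
    (lL := match ep with | true => none | false => some (A.p - T.t))
    (hL := match ep with | true => some T.t | false => none)
    (lR := match ep with | true => some (A.p - T.t) | false => none)
    (hR := match ep with | true => none | false => some T.t)
    ?_ ?_ ?_ ?_ ?_ ?_ ?_ ?_ hne (allO rfl hla) (fun h => by cases h) ?_ h
  · cases ep
    · change A.D * (A.p - T.t) = A.p * dot [0, 0, 0, 0, 1, 0, -1] (1 :: env A T r)
      unfold env
      simp only [dot_cons, dot_nil]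
      rw [th_eq, th_sub, th_p]; ring
    · trivial
  · cases ep
    · trivial
    · change A.D * T.t = A.p * dot [0, 0, 0, 0, 0, 0, 1] (1 :: env A T r)
      unfold env
      simp only [dot_cons, dot_nil]
      rw [th_eq]; ring
  · cases ep
    · trivial
    · change A.D * (A.p - T.t) = A.p * dot [0, 0, 0, 0, 1, 0, -1] (1 :: env A T r)
      unfold env
      simp only [dot_cons, dot_nil]
      rw [th_eq, th_sub, th_p]; ring
  · cases ep
    · change A.D * T.t = A.p * dot [0, 0, 0, 0, 0, 0, 1] (1 :: env A T r)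
      unfold env
      simp only [dot_cons, dot_nil]
      rw [th_eq]; ring
    · trivial
  · intro j h1 h2
    cases ep
    · exact Or.inr ⟨hep, by have := h1 _ rfl; omega⟩
    · exact Or.inl ⟨hep, h2 _ rfl⟩
  · intro j h1 h2
    cases ep
    · exact Or.inr ⟨hep, h2 _ rfl⟩
    · exact Or.inl ⟨hep, by have := h1 _ rfl; omega⟩
  · refine ⟨⟨T.t, ?_⟩, AllB.append (AllC.toB hJ) ⟨⟨A.p, ?_⟩, trivial⟩⟩
    · unfold LR.Ok rT env
      simp only [dot_cons, dot_nil]
      convert rt using 1 <;> ring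
    · unfold LR.Ok rP env
      simp only [dot_cons, dot_nil]
      convert Rec.P A using 1 <;> ring
  · refine ⟨⟨T.t, ⟨?_, T.t0, T.tp⟩⟩, hJ⟩
    unfold rT env
    simp only [dot_cons, dot_nil]
    convert rt using 1 <;> ring
  · exact AllNn.append hg (G hsx d hsg hep r)

/-- the classes of the trees -/
def JG : List LR := [⟨[0, 0, 0, 0, 0, 0, 0, 0, 0, 0, 1], [0, 0, 0, 0, 0, 0, 0, 0, 0, 1],
  [0, 0, 0, 0, 0, 0, 0, 0, 1]⟩, ⟨[0, 0, 0, 0, 0, 0, 0, 0, 0, 0, 0, 0, 0, 1],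
  [0, 0, 0, 0, 0, 0, 0, 0, 0, 0, 0, 0, 1], [0, 0, 0, 0, 0, 0, 0, 0, 0, 0, 0, 1]⟩]

/-- residues of the environment -/
def resG (es D a b : ℤ) : List ℤ := [1, 0, 0, 0, D, 0, es, 0, a, 0, a, b, 0, b]

/-- the base facts of two classes -/
structure PN (A : TAp) (T : A.Tie) (n j U S a V R b : ℤ) : Prop where
  d : ∃ sx : ℤ, (sx = 1 ∨ sx = -1) ∧ ST A T sx
  cn : IsC A n U S a
  cj : IsC A j V R b
  a0 : 1 ≤ a
  a1 : a + 1 ≤ A.D
  b0 : 1 ≤ b
  b1 : b + 1 ≤ A.D
  D0 : A.q * (A.w : ℤ) ≤ A.D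
  D1 : A.D + 1 ≤ A.q * (A.h : ℤ)
  x0 : A.q * (A.w : ℤ) + A.q * T.x ≤ A.q * A.h
  x1 : A.q * (A.w : ℤ) - A.q * T.x ≤ A.q * A.h
  N3 : 3 * (A.q * (A.h : ℤ)) ≤ NN A
  f : A.D + 1 ≤ a + th A T.t

theorem PN.go (h : PN A T n j U S a V R b) {sp ep : Bool} (hsg : A.sg = sgv sp)
    (hep : T.ep = sgv ep) {g la : List LF}
    (hg : AllNn (env A T [a, S, U, b, R, V]) g)
    (hla : ∀ F ∈ la, dot F (resG (sgv ep * sgv sp) A.D a b) = 0)
    {t : Pool.Agent.H78.RT.T} (ht : (mkZ sp ep JG g [] la).chk t = true) : False := by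
  obtain ⟨sx, hsx, d⟩ := h.d
  have cn := h.cn
  have cj := h.cj
  refine run0 hsx d hsg hep (J := JG) (g := g) (ne := []) (la := la)
    (r := [a, S, U, b, R, V]) ?_ hg trivial ?_ ht
  · refine ⟨⟨n, ?_⟩, ⟨j, ?_⟩, trivial⟩
    · unfold LR.Cl env
      simp only [dot_cons, dot_nil]
      convert cn using 1 <;> ring
    · unfold LR.Cl env
      simp only [dot_cons, dot_nil]
      convert cj using 1 <;> ring
  · intro F hF
    have h1 := d.q_th
    rw [hsg, hep] at h1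
    obtain ⟨s, hs, -⟩ := cn.1.2.1
    obtain ⟨s', hs', -⟩ := cj.1.2.1
    have h2 : List.Forall₂ (fun a b => (A.q : ℤ) ∣ a - b) (1 :: env A T [a, S, U, b, R, V])
        (resG (sgv ep * sgv sp) A.D a b) := by
      unfold env resG
      refine .cons (by simp) (.cons (by rw [sub_zero]; exact dvd_mul_left _ _)
        (.cons (by simp) (.cons (by simp) (.cons (by simp) (.cons (by simp) (.cons h1
        (.cons (by simp) (.cons (by simp) (.cons ⟨s, by rw [hs]; ring⟩ (.cons cn.1.mod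
        (.cons (by simp) (.cons ⟨s', by rw [hs']; ring⟩ (.cons cj.1.mod .nil)))))))))))))
    have := Pool.Agent.H81.LT.dot_dvd (F := F) h2
    rwa [hla F hF, sub_zero] at this

end Pool.Agent.H81.HP
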