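import Pool.Agent.H81.HP.Base
import Pool.Agent.H81.HP.TmmA
import Pool.Agent.H81.HP.TmmB
import Pool.Agent.H81.HP.TmpA
import Pool.Agent.H81.HP.TmpB
import Pool.Agent.H81.HP.TpmA
import Pool.Agent.H81.HP.TpmB
import Pool.Agent.H81.HP.TppA
import Pool.Agent.H81.HP.TppB

/-!
# Two general classes: the cells
-/

set_option linter.all false

namespace Pool.Agent.H81.HP

open Pool.Agent.H78.RT
open Pool.Agent.H78.Tie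
open Pool.Agent.H78.Tie.TAp
open Pool.Agent.H78.SV
open Pool.Agent.H81.LT (fnil fcons)
open Pool.Agent.H81.AP (LF dot dot_nil dot_nil' dot_cons AllNn AllNe)

variable {A : TAp} {T : A.Tie} {n j U S a V R b : ℤ}

theorem c_mpA1 (h : PN A T n j U S a V R b) (hsg : A.sg = 1) (hep : T.ep = -1)
    (e1 : 0 ≤ U - 2) (e2 : 0 ≤ A.q * A.w - 1 - U) (e3 : 0 ≤ (U + S) - 1) (e4 : 0 ≤ A.q * A.h - 1 - (U + S)) (e5 : 0 ≤ a + th A T.t - A.D - 1) (e6 : 0 ≤ S - A.q) (e7 : 0 ≤ A.q * A.h - A.q * A.w - S - A.q) (e8 : 0 ≤ R - A.q) (e9 : 0 ≤ A.q * A.w - A.q - R) (e10 : 0 ≤ (V + R) - (U + S) - 1) (e11 : 0 ≤ NN A + (U + S) - A.q * A.h - (V + R)) (e12 : 0 ≤ NN A - 3 * (A.q * A.h)) : False := by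
  refine h.go (sp := true) (ep := false) hsg hep (g := mpA1_g) (la := mpA1_q) ?_ ?_ mpA1_k
  · obtain ⟨-, -, -, k1, k2, k3, k4, k5, k6, k7, k8, k9, k10⟩ := h
    unfold mpA1_g env
    simp only [AllNn, dot_cons, dot_nil]
    refine ⟨?_, ?_, ?_, ?_, ?_, ?_, ?_, ?_, ?_, ?_, ?_, ?_, ?_, ?_, ?_, ?_, ?_, trivial⟩ <;> linarith
  · unfold mpA1_q
    repeat' first | exact fnil | refine fcons ?_ ?_
    all_goals (simp only [resG, sgv, dot_cons, dot_nil]; ring)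

theorem c_mmA1 (h : PN A T n j U S a V R b) (hsg : A.sg = -1) (hep : T.ep = -1)
    (e1 : 0 ≤ U - 2) (e2 : 0 ≤ A.q * A.w - 1 - U) (e3 : 0 ≤ (U + S) - 1) (e4 : 0 ≤ A.q * A.h - 1 - (U + S)) (e5 : 0 ≤ a + th A T.t - A.D - 1) (e6 : 0 ≤ S - A.q) (e7 : 0 ≤ A.q * A.h - A.q * A.w - S - A.q) (e8 : 0 ≤ R - A.q) (e9 : 0 ≤ A.q * A.w - A.q - R) (e10 : 0 ≤ (V + R) - (U + S) - 1) (e11 : 0 ≤ NN A + (U + S) - A.q * A.h - (V + R)) (e12 : 0 ≤ NN A - 3 * (A.q * A.h)) : False := by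
  refine h.go (sp := false) (ep := false) hsg hep (g := mmA1_g) (la := mmA1_q) ?_ ?_ mmA1_k
  · obtain ⟨-, -, -, k1, k2, k3, k4, k5, k6, k7, k8, k9, k10⟩ := h
    unfold mmA1_g env
    simp only [AllNn, dot_cons, dot_nil]
    refine ⟨?_, ?_, ?_, ?_, ?_, ?_, ?_, ?_, ?_, ?_, ?_, ?_, ?_, ?_, ?_, ?_, ?_, trivial⟩ <;> linarith
  · unfold mmA1_q
    repeat' first | exact fnil | refine fcons ?_ ?_
    all_goals (simp only [resG, sgv, dot_cons, dot_nil]; ring)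

theorem c_mpA2a (h : PN A T n j U S a V R b) (hsg : A.sg = 1) (hep : T.ep = -1)
    (e1 : 0 ≤ U - 2) (e2 : 0 ≤ A.q * A.w - 1 - U) (e3 : 0 ≤ (U + S) - 1) (e4 : 0 ≤ A.q * A.h - 1 - (U + S)) (e5 : 0 ≤ a + th A T.t - A.D - 1) (e6 : 0 ≤ S - A.q) (e7 : 0 ≤ A.q * A.h - A.q * A.w - S - A.q) (e8 : 0 ≤ R - A.q * A.w) (e9 : 0 ≤ S - R) (e10 : 0 ≤ (V + R) + A.q * A.h - 1) (e11 : 0 ≤ (U + S) - A.q * A.h - (V + R)) (e12 : 0 ≤ NN A - 3 * (A.q * A.h)) : False := by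
  refine h.go (sp := true) (ep := false) hsg hep (g := mpA2a_g) (la := mpA2a_q) ?_ ?_ mpA2a_k
  · obtain ⟨-, -, -, k1, k2, k3, k4, k5, k6, k7, k8, k9, k10⟩ := h
    unfold mpA2a_g env
    simp only [AllNn, dot_cons, dot_nil]
    refine ⟨?_, ?_, ?_, ?_, ?_, ?_, ?_, ?_, ?_, ?_, ?_, ?_, ?_, ?_, ?_, ?_, trivial⟩ <;> linarith
  · unfold mpA2a_q
    repeat' first | exact fnil | refine fcons ?_ ?_
    all_goals (simp only [resG, sgv, dot_cons, dot_nil]; ring)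

theorem c_mmA2a (h : PN A T n j U S a V R b) (hsg : A.sg = -1) (hep : T.ep = -1)
    (e1 : 0 ≤ U - 2) (e2 : 0 ≤ A.q * A.w - 1 - U) (e3 : 0 ≤ (U + S) - 1) (e4 : 0 ≤ A.q * A.h - 1 - (U + S)) (e5 : 0 ≤ a + th A T.t - A.D - 1) (e6 : 0 ≤ S - A.q) (e7 : 0 ≤ A.q * A.h - A.q * A.w - S - A.q) (e8 : 0 ≤ R - A.q * A.w) (e9 : 0 ≤ S - R) (e10 : 0 ≤ (V + R) + A.q * A.h - 1) (e11 : 0 ≤ (U + S) - A.q * A.h - (V + R)) (e12 : 0 ≤ NN A - 3 * (A.q * A.h)) : False := by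
  refine h.go (sp := false) (ep := false) hsg hep (g := mmA2a_g) (la := mmA2a_q) ?_ ?_ mmA2a_k
  · obtain ⟨-, -, -, k1, k2, k3, k4, k5, k6, k7, k8, k9, k10⟩ := h
    unfold mmA2a_g env
    simp only [AllNn, dot_cons, dot_nil]
    refine ⟨?_, ?_, ?_, ?_, ?_, ?_, ?_, ?_, ?_, ?_, ?_, ?_, ?_, ?_, ?_, ?_, trivial⟩ <;> linarith
  · unfold mmA2a_q
    repeat' first | exact fnil | refine fcons ?_ ?_
    all_goals (simp only [resG, sgv, dot_cons, dot_nil]; ring)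

theorem c_mpA2b (h : PN A T n j U S a V R b) (hsg : A.sg = 1) (hep : T.ep = -1)
    (e1 : 0 ≤ U - 2) (e2 : 0 ≤ A.q * A.w - 1 - U) (e3 : 0 ≤ (U + S) - 1) (e4 : 0 ≤ A.q * A.h - 1 - (U + S)) (e5 : 0 ≤ a + th A T.t - A.D - 1) (e6 : 0 ≤ S - A.q) (e7 : 0 ≤ A.q * A.h - A.q * A.w - S - A.q) (e8 : 0 ≤ R - A.q * A.w) (e9 : 0 ≤ S - R) (e10 : 0 ≤ (V + R) - A.q * A.h - 1) (e11 : 0 ≤ (U + S) + A.q * A.h - (V + R)) (e12 : 0 ≤ NN A - 3 * (A.q * A.h)) : False := by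
  refine h.go (sp := true) (ep := false) hsg hep (g := mpA2b_g) (la := mpA2b_q) ?_ ?_ mpA2b_k
  · obtain ⟨-, -, -, k1, k2, k3, k4, k5, k6, k7, k8, k9, k10⟩ := h
    unfold mpA2b_g env
    simp only [AllNn, dot_cons, dot_nil]
    refine ⟨?_, ?_, ?_, ?_, ?_, ?_, ?_, ?_, ?_, ?_, ?_, ?_, ?_, ?_, ?_, ?_, trivial⟩ <;> linarith
  · unfold mpA2b_q
    repeat' first | exact fnil | refine fcons ?_ ?_
    all_goals (simp only [resG, sgv, dot_cons, dot_nil]; ring)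

theorem c_mmA2b (h : PN A T n j U S a V R b) (hsg : A.sg = -1) (hep : T.ep = -1)
    (e1 : 0 ≤ U - 2) (e2 : 0 ≤ A.q * A.w - 1 - U) (e3 : 0 ≤ (U + S) - 1) (e4 : 0 ≤ A.q * A.h - 1 - (U + S)) (e5 : 0 ≤ a + th A T.t - A.D - 1) (e6 : 0 ≤ S - A.q) (e7 : 0 ≤ A.q * A.h - A.q * A.w - S - A.q) (e8 : 0 ≤ R - A.q * A.w) (e9 : 0 ≤ S - R) (e10 : 0 ≤ (V + R) - A.q * A.h - 1) (e11 : 0 ≤ (U + S) + A.q * A.h - (V + R)) (e12 : 0 ≤ NN A - 3 * (A.q * A.h)) : False := by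
  refine h.go (sp := false) (ep := false) hsg hep (g := mmA2b_g) (la := mmA2b_q) ?_ ?_ mmA2b_k
  · obtain ⟨-, -, -, k1, k2, k3, k4, k5, k6, k7, k8, k9, k10⟩ := h
    unfold mmA2b_g env
    simp only [AllNn, dot_cons, dot_nil]
    refine ⟨?_, ?_, ?_, ?_, ?_, ?_, ?_, ?_, ?_, ?_, ?_, ?_, ?_, ?_, ?_, ?_, trivial⟩ <;> linarith
  · unfold mmA2b_q
    repeat' first | exact fnil | refine fcons ?_ ?_
    all_goals (simp only [resG, sgv, dot_cons, dot_nil]; ring)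

theorem c_mpA3 (h : PN A T n j U S a V R b) (hsg : A.sg = 1) (hep : T.ep = -1)
    (e1 : 0 ≤ U - 2) (e2 : 0 ≤ A.q * A.w - 1 - U) (e3 : 0 ≤ (U + S) - 1) (e4 : 0 ≤ A.q * A.h - 1 - (U + S)) (e5 : 0 ≤ a + th A T.t - A.D - 1) (e6 : 0 ≤ S - A.q) (e7 : 0 ≤ A.q * A.h - A.q * A.w - S - A.q) (e8 : 0 ≤ R - S - A.q) (e9 : 0 ≤ A.q * A.h - R) (e10 : 0 ≤ (V + R) - (U + S) - A.q * A.h - 1) (e11 : 0 ≤ NN A - (V + R)) (e12 : 0 ≤ NN A - 3 * (A.q * A.h)) : False := by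
  refine h.go (sp := true) (ep := false) hsg hep (g := mpA3_g) (la := mpA3_q) ?_ ?_ mpA3_k
  · obtain ⟨-, -, -, k1, k2, k3, k4, k5, k6, k7, k8, k9, k10⟩ := h
    unfold mpA3_g env
    simp only [AllNn, dot_cons, dot_nil]
    refine ⟨?_, ?_, ?_, ?_, ?_, ?_, ?_, ?_, ?_, ?_, ?_, ?_, ?_, ?_, ?_, ?_, ?_, trivial⟩ <;> linarith
  · unfold mpA3_q
    repeat' first | exact fnil | refine fcons ?_ ?_
    all_goals (simp only [resG, sgv, dot_cons, dot_nil]; ring)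

theorem c_mmA3 (h : PN A T n j U S a V R b) (hsg : A.sg = -1) (hep : T.ep = -1)
    (e1 : 0 ≤ U - 2) (e2 : 0 ≤ A.q * A.w - 1 - U) (e3 : 0 ≤ (U + S) - 1) (e4 : 0 ≤ A.q * A.h - 1 - (U + S)) (e5 : 0 ≤ a + th A T.t - A.D - 1) (e6 : 0 ≤ S - A.q) (e7 : 0 ≤ A.q * A.h - A.q * A.w - S - A.q) (e8 : 0 ≤ R - S - A.q) (e9 : 0 ≤ A.q * A.h - R) (e10 : 0 ≤ (V + R) - (U + S) - A.q * A.h - 1) (e11 : 0 ≤ NN A - (V + R)) (e12 : 0 ≤ NN A - 3 * (A.q * A.h)) : False := by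
  refine h.go (sp := false) (ep := false) hsg hep (g := mmA3_g) (la := mmA3_q) ?_ ?_ mmA3_k
  · obtain ⟨-, -, -, k1, k2, k3, k4, k5, k6, k7, k8, k9, k10⟩ := h
    unfold mmA3_g env
    simp only [AllNn, dot_cons, dot_nil]
    refine ⟨?_, ?_, ?_, ?_, ?_, ?_, ?_, ?_, ?_, ?_, ?_, ?_, ?_, ?_, ?_, ?_, ?_, trivial⟩ <;> linarith
  · unfold mmA3_q
    repeat' first | exact fnil | refine fcons ?_ ?_
    all_goals (simp only [resG, sgv, dot_cons, dot_nil]; ring)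

theorem c_mpA4 (h : PN A T n j U S a V R b) (hsg : A.sg = 1) (hep : T.ep = -1)
    (e1 : 0 ≤ U - 2) (e2 : 0 ≤ A.q * A.w - 1 - U) (e3 : 0 ≤ (U + S) - 1) (e4 : 0 ≤ A.q * A.h - 1 - (U + S)) (e5 : 0 ≤ a + th A T.t - A.D - 1) (e6 : 0 ≤ S - A.q) (e7 : 0 ≤ A.q * A.h - A.q * A.w - S - A.q) (e8 : 0 ≤ R + A.q) (e9 : 0 ≤ -A.q - R) (e10 : 0 ≤ (V + R) - (U + S) - 1) (e11 : 0 ≤ NN A + U - A.q * A.h - (V + R)) (e12 : 0 ≤ NN A - 3 * (A.q * A.h)) : False := by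
  refine h.go (sp := true) (ep := false) hsg hep (g := mpA4_g) (la := mpA4_q) ?_ ?_ mpA4_k
  · obtain ⟨-, -, -, k1, k2, k3, k4, k5, k6, k7, k8, k9, k10⟩ := h
    unfold mpA4_g env
    simp only [AllNn, dot_cons, dot_nil]
    refine ⟨?_, ?_, ?_, ?_, ?_, ?_, ?_, ?_, ?_, ?_, ?_, ?_, ?_, ?_, ?_, ?_, ?_, trivial⟩ <;> linarith
  · unfold mpA4_q
    repeat' first | exact fnil | refine fcons ?_ ?_
    all_goals (simp only [resG, sgv, dot_cons, dot_nil]; ring)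

theorem c_mmA4 (h : PN A T n j U S a V R b) (hsg : A.sg = -1) (hep : T.ep = -1)
    (e1 : 0 ≤ U - 2) (e2 : 0 ≤ A.q * A.w - 1 - U) (e3 : 0 ≤ (U + S) - 1) (e4 : 0 ≤ A.q * A.h - 1 - (U + S)) (e5 : 0 ≤ a + th A T.t - A.D - 1) (e6 : 0 ≤ S - A.q) (e7 : 0 ≤ A.q * A.h - A.q * A.w - S - A.q) (e8 : 0 ≤ R + A.q) (e9 : 0 ≤ -A.q - R) (e10 : 0 ≤ (V + R) - (U + S) - 1) (e11 : 0 ≤ NN A + U - A.q * A.h - (V + R)) (e12 : 0 ≤ NN A - 3 * (A.q * A.h)) : False := by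
  refine h.go (sp := false) (ep := false) hsg hep (g := mmA4_g) (la := mmA4_q) ?_ ?_ mmA4_k
  · obtain ⟨-, -, -, k1, k2, k3, k4, k5, k6, k7, k8, k9, k10⟩ := h
    unfold mmA4_g env
    simp only [AllNn, dot_cons, dot_nil]
    refine ⟨?_, ?_, ?_, ?_, ?_, ?_, ?_, ?_, ?_, ?_, ?_, ?_, ?_, ?_, ?_, ?_, ?_, trivial⟩ <;> linarith
  · unfold mmA4_q
    repeat' first | exact fnil | refine fcons ?_ ?_
    all_goals (simp only [resG, sgv, dot_cons, dot_nil]; ring)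

theorem c_mpB1 (h : PN A T n j U S a V R b) (hsg : A.sg = 1) (hep : T.ep = -1)
    (e1 : 0 ≤ U - 2) (e2 : 0 ≤ A.q * A.w - 1 - U) (e3 : 0 ≤ -(U + S) - 1) (e4 : 0 ≤ (U + S) + A.q * A.h - 1) (e5 : 0 ≤ a + th A T.t - A.D - 1) (e6 : 0 ≤ S + A.q * A.h - A.q * A.w) (e7 : 0 ≤ -S - A.q) (e8 : 0 ≤ R - A.q) (e9 : 0 ≤ A.q * A.w - A.q - R) (e10 : 0 ≤ (V + R) - (U + S) - A.q * A.h - 1) (e11 : 0 ≤ NN A + (U + S) - (V + R)) (e12 : 0 ≤ NN A - 3 * (A.q * A.h)) : False := by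
  refine h.go (sp := true) (ep := false) hsg hep (g := mpB1_g) (la := mpB1_q) ?_ ?_ mpB1_k
  · obtain ⟨-, -, -, k1, k2, k3, k4, k5, k6, k7, k8, k9, k10⟩ := h
    unfold mpB1_g env
    simp only [AllNn, dot_cons, dot_nil]
    refine ⟨?_, ?_, ?_, ?_, ?_, ?_, ?_, ?_, ?_, ?_, ?_, ?_, ?_, ?_, ?_, ?_, ?_, ?_, trivial⟩ <;> linarith
  · unfold mpB1_q
    repeat' first | exact fnil | refine fcons ?_ ?_
    all_goals (simp only [resG, sgv, dot_cons, dot_nil]; ring)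

theorem c_mmB1 (h : PN A T n j U S a V R b) (hsg : A.sg = -1) (hep : T.ep = -1)
    (e1 : 0 ≤ U - 2) (e2 : 0 ≤ A.q * A.w - 1 - U) (e3 : 0 ≤ -(U + S) - 1) (e4 : 0 ≤ (U + S) + A.q * A.h - 1) (e5 : 0 ≤ a + th A T.t - A.D - 1) (e6 : 0 ≤ S + A.q * A.h - A.q * A.w) (e7 : 0 ≤ -S - A.q) (e8 : 0 ≤ R - A.q) (e9 : 0 ≤ A.q * A.w - A.q - R) (e10 : 0 ≤ (V + R) - (U + S) - A.q * A.h - 1) (e11 : 0 ≤ NN A + (U + S) - (V + R)) (e12 : 0 ≤ NN A - 3 * (A.q * A.h)) : False := by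
  refine h.go (sp := false) (ep := false) hsg hep (g := mmB1_g) (la := mmB1_q) ?_ ?_ mmB1_k
  · obtain ⟨-, -, -, k1, k2, k3, k4, k5, k6, k7, k8, k9, k10⟩ := h
    unfold mmB1_g env
    simp only [AllNn, dot_cons, dot_nil]
    refine ⟨?_, ?_, ?_, ?_, ?_, ?_, ?_, ?_, ?_, ?_, ?_, ?_, ?_, ?_, ?_, ?_, ?_, ?_, trivial⟩ <;> linarith
  · unfold mmB1_q
    repeat' first | exact fnil | refine fcons ?_ ?_
    all_goals (simp only [resG, sgv, dot_cons, dot_nil]; ring)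

theorem c_mpB2 (h : PN A T n j U S a V R b) (hsg : A.sg = 1) (hep : T.ep = -1)
    (e1 : 0 ≤ U - 2) (e2 : 0 ≤ A.q * A.w - 1 - U) (e3 : 0 ≤ -(U + S) - 1) (e4 : 0 ≤ (U + S) + A.q * A.h - 1) (e5 : 0 ≤ a + th A T.t - A.D - 1) (e6 : 0 ≤ S + A.q * A.h - A.q * A.w) (e7 : 0 ≤ -S - A.q) (e8 : 0 ≤ R - A.q * A.w) (e9 : 0 ≤ A.q * A.h + S - R) (e10 : 0 ≤ (V + R) - U - A.q * A.h - 1) (e11 : 0 ≤ NN A + (U + S) - (V + R)) (e12 : 0 ≤ NN A - 3 * (A.q * A.h)) : False := by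
  refine h.go (sp := true) (ep := false) hsg hep (g := mpB2_g) (la := mpB2_q) ?_ ?_ mpB2_k
  · obtain ⟨-, -, -, k1, k2, k3, k4, k5, k6, k7, k8, k9, k10⟩ := h
    unfold mpB2_g env
    simp only [AllNn, dot_cons, dot_nil]
    refine ⟨?_, ?_, ?_, ?_, ?_, ?_, ?_, ?_, ?_, ?_, ?_, ?_, ?_, ?_, ?_, ?_, ?_, trivial⟩ <;> linarith
  · unfold mpB2_q
    repeat' first | exact fnil | refine fcons ?_ ?_
    all_goals (simp only [resG, sgv, dot_cons, dot_nil]; ring)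

theorem c_mmB2 (h : PN A T n j U S a V R b) (hsg : A.sg = -1) (hep : T.ep = -1)
    (e1 : 0 ≤ U - 2) (e2 : 0 ≤ A.q * A.w - 1 - U) (e3 : 0 ≤ -(U + S) - 1) (e4 : 0 ≤ (U + S) + A.q * A.h - 1) (e5 : 0 ≤ a + th A T.t - A.D - 1) (e6 : 0 ≤ S + A.q * A.h - A.q * A.w) (e7 : 0 ≤ -S - A.q) (e8 : 0 ≤ R - A.q * A.w) (e9 : 0 ≤ A.q * A.h + S - R) (e10 : 0 ≤ (V + R) - U - A.q * A.h - 1) (e11 : 0 ≤ NN A + (U + S) - (V + R)) (e12 : 0 ≤ NN A - 3 * (A.q * A.h)) : False := by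
  refine h.go (sp := false) (ep := false) hsg hep (g := mmB2_g) (la := mmB2_q) ?_ ?_ mmB2_k
  · obtain ⟨-, -, -, k1, k2, k3, k4, k5, k6, k7, k8, k9, k10⟩ := h
    unfold mmB2_g env
    simp only [AllNn, dot_cons, dot_nil]
    refine ⟨?_, ?_, ?_, ?_, ?_, ?_, ?_, ?_, ?_, ?_, ?_, ?_, ?_, ?_, ?_, ?_, ?_, trivial⟩ <;> linarith
  · unfold mmB2_q
    repeat' first | exact fnil | refine fcons ?_ ?_
    all_goals (simp only [resG, sgv, dot_cons, dot_nil]; ring)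

theorem c_mpB3 (h : PN A T n j U S a V R b) (hsg : A.sg = 1) (hep : T.ep = -1)
    (e1 : 0 ≤ U - 2) (e2 : 0 ≤ A.q * A.w - 1 - U) (e3 : 0 ≤ -(U + S) - 1) (e4 : 0 ≤ (U + S) + A.q * A.h - 1) (e5 : 0 ≤ a + th A T.t - A.D - 1) (e6 : 0 ≤ S + A.q * A.h - A.q * A.w) (e7 : 0 ≤ -S - A.q) (e8 : 0 ≤ R - A.q * A.h - S - A.q) (e9 : 0 ≤ A.q * A.h + A.q * A.w - A.q + S - R) (e10 : 0 ≤ (V + R) - U - A.q * A.h - 1) (e11 : 0 ≤ NN A - (V + R)) (e12 : 0 ≤ NN A - 3 * (A.q * A.h)) : False := by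
  refine h.go (sp := true) (ep := false) hsg hep (g := mpB3_g) (la := mpB3_q) ?_ ?_ mpB3_k
  · obtain ⟨-, -, -, k1, k2, k3, k4, k5, k6, k7, k8, k9, k10⟩ := h
    unfold mpB3_g env
    simp only [AllNn, dot_cons, dot_nil]
    refine ⟨?_, ?_, ?_, ?_, ?_, ?_, ?_, ?_, ?_, ?_, ?_, ?_, ?_, ?_, ?_, ?_, ?_, ?_, trivial⟩ <;> linarith
  · unfold mpB3_q
    repeat' first | exact fnil | refine fcons ?_ ?_
    all_goals (simp only [resG, sgv, dot_cons, dot_nil]; ring)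

theorem c_mmB3 (h : PN A T n j U S a V R b) (hsg : A.sg = -1) (hep : T.ep = -1)
    (e1 : 0 ≤ U - 2) (e2 : 0 ≤ A.q * A.w - 1 - U) (e3 : 0 ≤ -(U + S) - 1) (e4 : 0 ≤ (U + S) + A.q * A.h - 1) (e5 : 0 ≤ a + th A T.t - A.D - 1) (e6 : 0 ≤ S + A.q * A.h - A.q * A.w) (e7 : 0 ≤ -S - A.q) (e8 : 0 ≤ R - A.q * A.h - S - A.q) (e9 : 0 ≤ A.q * A.h + A.q * A.w - A.q + S - R) (e10 : 0 ≤ (V + R) - U - A.q * A.h - 1) (e11 : 0 ≤ NN A - (V + R)) (e12 : 0 ≤ NN A - 3 * (A.q * A.h)) : False := by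
  refine h.go (sp := false) (ep := false) hsg hep (g := mmB3_g) (la := mmB3_q) ?_ ?_ mmB3_k
  · obtain ⟨-, -, -, k1, k2, k3, k4, k5, k6, k7, k8, k9, k10⟩ := h
    unfold mmB3_g env
    simp only [AllNn, dot_cons, dot_nil]
    refine ⟨?_, ?_, ?_, ?_, ?_, ?_, ?_, ?_, ?_, ?_, ?_, ?_, ?_, ?_, ?_, ?_, ?_, ?_, trivial⟩ <;> linarith
  · unfold mmB3_q
    repeat' first | exact fnil | refine fcons ?_ ?_
    all_goals (simp only [resG, sgv, dot_cons, dot_nil]; ring)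

theorem c_mpB4 (h : PN A T n j U S a V R b) (hsg : A.sg = 1) (hep : T.ep = -1)
    (e1 : 0 ≤ U - 2) (e2 : 0 ≤ A.q * A.w - 1 - U) (e3 : 0 ≤ -(U + S) - 1) (e4 : 0 ≤ (U + S) + A.q * A.h - 1) (e5 : 0 ≤ a + th A T.t - A.D - 1) (e6 : 0 ≤ S + A.q * A.h - A.q * A.w) (e7 : 0 ≤ -S - A.q) (e8 : 0 ≤ R - A.q * A.h - A.q * A.w - S) (e9 : 0 ≤ A.q * A.h - R) (e10 : 0 ≤ (V + R) + A.q * A.h - 1) (e11 : 0 ≤ -(V + R)) (e12 : 0 ≤ NN A - 3 * (A.q * A.h)) : False := by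
  refine h.go (sp := true) (ep := false) hsg hep (g := mpB4_g) (la := mpB4_q) ?_ ?_ mpB4_k
  · obtain ⟨-, -, -, k1, k2, k3, k4, k5, k6, k7, k8, k9, k10⟩ := h
    unfold mpB4_g env
    simp only [AllNn, dot_cons, dot_nil]
    refine ⟨?_, ?_, ?_, ?_, ?_, ?_, ?_, ?_, ?_, ?_, ?_, ?_, ?_, ?_, ?_, ?_, trivial⟩ <;> linarith
  · unfold mpB4_q
    repeat' first | exact fnil | refine fcons ?_ ?_
    all_goals (simp only [resG, sgv, dot_cons, dot_nil]; ring)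

theorem c_mmB4 (h : PN A T n j U S a V R b) (hsg : A.sg = -1) (hep : T.ep = -1)
    (e1 : 0 ≤ U - 2) (e2 : 0 ≤ A.q * A.w - 1 - U) (e3 : 0 ≤ -(U + S) - 1) (e4 : 0 ≤ (U + S) + A.q * A.h - 1) (e5 : 0 ≤ a + th A T.t - A.D - 1) (e6 : 0 ≤ S + A.q * A.h - A.q * A.w) (e7 : 0 ≤ -S - A.q) (e8 : 0 ≤ R - A.q * A.h - A.q * A.w - S) (e9 : 0 ≤ A.q * A.h - R) (e10 : 0 ≤ (V + R) + A.q * A.h - 1) (e11 : 0 ≤ -(V + R)) (e12 : 0 ≤ NN A - 3 * (A.q * A.h)) : False := by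
  refine h.go (sp := false) (ep := false) hsg hep (g := mmB4_g) (la := mmB4_q) ?_ ?_ mmB4_k
  · obtain ⟨-, -, -, k1, k2, k3, k4, k5, k6, k7, k8, k9, k10⟩ := h
    unfold mmB4_g env
    simp only [AllNn, dot_cons, dot_nil]
    refine ⟨?_, ?_, ?_, ?_, ?_, ?_, ?_, ?_, ?_, ?_, ?_, ?_, ?_, ?_, ?_, ?_, trivial⟩ <;> linarith
  · unfold mmB4_q
    repeat' first | exact fnil | refine fcons ?_ ?_
    all_goals (simp only [resG, sgv, dot_cons, dot_nil]; ring)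

theorem c_mpB5 (h : PN A T n j U S a V R b) (hsg : A.sg = 1) (hep : T.ep = -1)
    (e1 : 0 ≤ U - 2) (e2 : 0 ≤ A.q * A.w - 1 - U) (e3 : 0 ≤ -(U + S) - 1) (e4 : 0 ≤ (U + S) + A.q * A.h - 1) (e5 : 0 ≤ a + th A T.t - A.D - 1) (e6 : 0 ≤ S + A.q * A.h - A.q * A.w) (e7 : 0 ≤ -S - A.q) (e8 : 0 ≤ R - A.q) (e9 : 0 ≤ NN A - A.q * A.h + S - R) (e10 : 0 ≤ (V + R) + A.q * A.h - 1) (e11 : 0 ≤ (U + S) - (V + R)) (e12 : 0 ≤ NN A - 3 * (A.q * A.h)) : False := by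
  refine h.go (sp := true) (ep := false) hsg hep (g := mpB5_g) (la := mpB5_q) ?_ ?_ mpB5_k
  · obtain ⟨-, -, -, k1, k2, k3, k4, k5, k6, k7, k8, k9, k10⟩ := h
    unfold mpB5_g env
    simp only [AllNn, dot_cons, dot_nil]
    refine ⟨?_, ?_, ?_, ?_, ?_, ?_, ?_, ?_, ?_, ?_, ?_, ?_, ?_, ?_, ?_, ?_, ?_, ?_, trivial⟩ <;> linarith
  · unfold mpB5_q
    repeat' first | exact fnil | refine fcons ?_ ?_
    all_goals (simp only [resG, sgv, dot_cons, dot_nil]; ring)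

theorem c_mmB5 (h : PN A T n j U S a V R b) (hsg : A.sg = -1) (hep : T.ep = -1)
    (e1 : 0 ≤ U - 2) (e2 : 0 ≤ A.q * A.w - 1 - U) (e3 : 0 ≤ -(U + S) - 1) (e4 : 0 ≤ (U + S) + A.q * A.h - 1) (e5 : 0 ≤ a + th A T.t - A.D - 1) (e6 : 0 ≤ S + A.q * A.h - A.q * A.w) (e7 : 0 ≤ -S - A.q) (e8 : 0 ≤ R - A.q) (e9 : 0 ≤ NN A - A.q * A.h + S - R) (e10 : 0 ≤ (V + R) + A.q * A.h - 1) (e11 : 0 ≤ (U + S) - (V + R)) (e12 : 0 ≤ NN A - 3 * (A.q * A.h)) : False := by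
  refine h.go (sp := false) (ep := false) hsg hep (g := mmB5_g) (la := mmB5_q) ?_ ?_ mmB5_k
  · obtain ⟨-, -, -, k1, k2, k3, k4, k5, k6, k7, k8, k9, k10⟩ := h
    unfold mmB5_g env
    simp only [AllNn, dot_cons, dot_nil]
    refine ⟨?_, ?_, ?_, ?_, ?_, ?_, ?_, ?_, ?_, ?_, ?_, ?_, ?_, ?_, ?_, ?_, ?_, ?_, trivial⟩ <;> linarith
  · unfold mmB5_q
    repeat' first | exact fnil | refine fcons ?_ ?_
    all_goals (simp only [resG, sgv, dot_cons, dot_nil]; ring)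

theorem c_mpB6 (h : PN A T n j U S a V R b) (hsg : A.sg = 1) (hep : T.ep = -1)
    (e1 : 0 ≤ U - 2) (e2 : 0 ≤ A.q * A.w - 1 - U) (e3 : 0 ≤ -(U + S) - 1) (e4 : 0 ≤ (U + S) + A.q * A.h - 1) (e5 : 0 ≤ a + th A T.t - A.D - 1) (e6 : 0 ≤ S + A.q * A.h - A.q * A.w) (e7 : 0 ≤ -S - A.q) (e8 : 0 ≤ R - A.q) (e9 : 0 ≤ A.q - R) (e10 : 0 ≤ (V + R) - (U + S)) (e11 : 0 ≤ -(V + R) - 1) (e12 : 0 ≤ A.D - (V + R) - NN A + A.q * A.h - S) (e13 : 0 ≤ NN A - 3 * (A.q * A.h)) : False := by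
  refine h.go (sp := true) (ep := false) hsg hep (g := mpB6_g) (la := mpB6_q) ?_ ?_ mpB6_k
  · obtain ⟨-, -, -, k1, k2, k3, k4, k5, k6, k7, k8, k9, k10⟩ := h
    unfold mpB6_g env
    simp only [AllNn, dot_cons, dot_nil]
    refine ⟨?_, ?_, ?_, ?_, ?_, ?_, ?_, ?_, ?_, ?_, ?_, ?_, ?_, ?_, ?_, trivial⟩ <;> linarith
  · unfold mpB6_q
    repeat' first | exact fnil | refine fcons ?_ ?_
    all_goals (simp only [resG, sgv, dot_cons, dot_nil]; ring)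

theorem c_mmB6 (h : PN A T n j U S a V R b) (hsg : A.sg = -1) (hep : T.ep = -1)
    (e1 : 0 ≤ U - 2) (e2 : 0 ≤ A.q * A.w - 1 - U) (e3 : 0 ≤ -(U + S) - 1) (e4 : 0 ≤ (U + S) + A.q * A.h - 1) (e5 : 0 ≤ a + th A T.t - A.D - 1) (e6 : 0 ≤ S + A.q * A.h - A.q * A.w) (e7 : 0 ≤ -S - A.q) (e8 : 0 ≤ R - A.q) (e9 : 0 ≤ A.q - R) (e10 : 0 ≤ (V + R) - (U + S)) (e11 : 0 ≤ -(V + R) - 1) (e12 : 0 ≤ A.D - (V + R) - NN A + A.q * A.h - S) (e13 : 0 ≤ NN A - 3 * (A.q * A.h)) : False := by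
  refine h.go (sp := false) (ep := false) hsg hep (g := mmB6_g) (la := mmB6_q) ?_ ?_ mmB6_k
  · obtain ⟨-, -, -, k1, k2, k3, k4, k5, k6, k7, k8, k9, k10⟩ := h
    unfold mmB6_g env
    simp only [AllNn, dot_cons, dot_nil]
    refine ⟨?_, ?_, ?_, ?_, ?_, ?_, ?_, ?_, ?_, ?_, ?_, ?_, ?_, ?_, ?_, trivial⟩ <;> linarith
  · unfold mmB6_q
    repeat' first | exact fnil | refine fcons ?_ ?_
    all_goals (simp only [resG, sgv, dot_cons, dot_nil]; ring)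

theorem c_ppA1 (h : PN A T n j U S a V R b) (hsg : A.sg = 1) (hep : T.ep = 1)
    (e1 : 0 ≤ -U - 2) (e2 : 0 ≤ A.q * A.w - 1 + U) (e3 : 0 ≤ (U + S) - 1) (e4 : 0 ≤ A.q * A.h - 1 - (U + S)) (e5 : 0 ≤ a + th A T.t - A.D - 1) (e6 : 0 ≤ S - A.q * A.w - A.q) (e7 : 0 ≤ R - A.q) (e8 : 0 ≤ A.q * A.w - A.q - R) (e9 : 0 ≤ (V + R) - (U + S) - 1) (e10 : 0 ≤ NN A + (U + S) - A.q * A.h - (V + R)) (e11 : 0 ≤ NN A - 3 * (A.q * A.h)) : False := by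
  refine h.go (sp := true) (ep := true) hsg hep (g := ppA1_g) (la := ppA1_q) ?_ ?_ ppA1_k
  · obtain ⟨-, -, -, k1, k2, k3, k4, k5, k6, k7, k8, k9, k10⟩ := h
    unfold ppA1_g env
    simp only [AllNn, dot_cons, dot_nil]
    refine ⟨?_, ?_, ?_, ?_, ?_, ?_, ?_, ?_, ?_, ?_, ?_, ?_, ?_, ?_, ?_, ?_, ?_, trivial⟩ <;> linarith
  · unfold ppA1_q
    repeat' first | exact fnil | refine fcons ?_ ?_
    all_goals (simp only [resG, sgv, dot_cons, dot_nil]; ring)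

theorem c_pmA1 (h : PN A T n j U S a V R b) (hsg : A.sg = -1) (hep : T.ep = 1)
    (e1 : 0 ≤ -U - 2) (e2 : 0 ≤ A.q * A.w - 1 + U) (e3 : 0 ≤ (U + S) - 1) (e4 : 0 ≤ A.q * A.h - 1 - (U + S)) (e5 : 0 ≤ a + th A T.t - A.D - 1) (e6 : 0 ≤ S - A.q * A.w - A.q) (e7 : 0 ≤ R - A.q) (e8 : 0 ≤ A.q * A.w - A.q - R) (e9 : 0 ≤ (V + R) - (U + S) - 1) (e10 : 0 ≤ NN A + (U + S) - A.q * A.h - (V + R)) (e11 : 0 ≤ NN A - 3 * (A.q * A.h)) : False := by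
  refine h.go (sp := false) (ep := true) hsg hep (g := pmA1_g) (la := pmA1_q) ?_ ?_ pmA1_k
  · obtain ⟨-, -, -, k1, k2, k3, k4, k5, k6, k7, k8, k9, k10⟩ := h
    unfold pmA1_g env
    simp only [AllNn, dot_cons, dot_nil]
    refine ⟨?_, ?_, ?_, ?_, ?_, ?_, ?_, ?_, ?_, ?_, ?_, ?_, ?_, ?_, ?_, ?_, ?_, trivial⟩ <;> linarith
  · unfold pmA1_q
    repeat' first | exact fnil | refine fcons ?_ ?_
    all_goals (simp only [resG, sgv, dot_cons, dot_nil]; ring)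

theorem c_ppA2a (h : PN A T n j U S a V R b) (hsg : A.sg = 1) (hep : T.ep = 1)
    (e1 : 0 ≤ -U - 2) (e2 : 0 ≤ A.q * A.w - 1 + U) (e3 : 0 ≤ (U + S) - 1) (e4 : 0 ≤ A.q * A.h - 1 - (U + S)) (e5 : 0 ≤ a + th A T.t - A.D - 1) (e6 : 0 ≤ S - A.q * A.w - A.q) (e7 : 0 ≤ R - A.q * A.w) (e8 : 0 ≤ S - A.q * A.w - R) (e9 : 0 ≤ (V + R) + A.q * A.h - 1) (e10 : 0 ≤ (U + S) - A.q * A.h - (V + R)) (e11 : 0 ≤ NN A - 3 * (A.q * A.h)) : False := by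
  refine h.go (sp := true) (ep := true) hsg hep (g := ppA2a_g) (la := ppA2a_q) ?_ ?_ ppA2a_k
  · obtain ⟨-, -, -, k1, k2, k3, k4, k5, k6, k7, k8, k9, k10⟩ := h
    unfold ppA2a_g env
    simp only [AllNn, dot_cons, dot_nil]
    refine ⟨?_, ?_, ?_, ?_, ?_, ?_, ?_, ?_, ?_, ?_, ?_, ?_, ?_, ?_, ?_, ?_, trivial⟩ <;> linarith
  · unfold ppA2a_q
    repeat' first | exact fnil | refine fcons ?_ ?_
    all_goals (simp only [resG, sgv, dot_cons, dot_nil]; ring)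

theorem c_pmA2a (h : PN A T n j U S a V R b) (hsg : A.sg = -1) (hep : T.ep = 1)
    (e1 : 0 ≤ -U - 2) (e2 : 0 ≤ A.q * A.w - 1 + U) (e3 : 0 ≤ (U + S) - 1) (e4 : 0 ≤ A.q * A.h - 1 - (U + S)) (e5 : 0 ≤ a + th A T.t - A.D - 1) (e6 : 0 ≤ S - A.q * A.w - A.q) (e7 : 0 ≤ R - A.q * A.w) (e8 : 0 ≤ S - A.q * A.w - R) (e9 : 0 ≤ (V + R) + A.q * A.h - 1) (e10 : 0 ≤ (U + S) - A.q * A.h - (V + R)) (e11 : 0 ≤ NN A - 3 * (A.q * A.h)) : False := by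
  refine h.go (sp := false) (ep := true) hsg hep (g := pmA2a_g) (la := pmA2a_q) ?_ ?_ pmA2a_k
  · obtain ⟨-, -, -, k1, k2, k3, k4, k5, k6, k7, k8, k9, k10⟩ := h
    unfold pmA2a_g env
    simp only [AllNn, dot_cons, dot_nil]
    refine ⟨?_, ?_, ?_, ?_, ?_, ?_, ?_, ?_, ?_, ?_, ?_, ?_, ?_, ?_, ?_, ?_, trivial⟩ <;> linarith
  · unfold pmA2a_q
    repeat' first | exact fnil | refine fcons ?_ ?_
    all_goals (simp only [resG, sgv, dot_cons, dot_nil]; ring)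

theorem c_ppA2b (h : PN A T n j U S a V R b) (hsg : A.sg = 1) (hep : T.ep = 1)
    (e1 : 0 ≤ -U - 2) (e2 : 0 ≤ A.q * A.w - 1 + U) (e3 : 0 ≤ (U + S) - 1) (e4 : 0 ≤ A.q * A.h - 1 - (U + S)) (e5 : 0 ≤ a + th A T.t - A.D - 1) (e6 : 0 ≤ S - A.q * A.w - A.q) (e7 : 0 ≤ R - A.q * A.w) (e8 : 0 ≤ S - A.q * A.w - R) (e9 : 0 ≤ (V + R) - A.q * A.h - 1) (e10 : 0 ≤ (U + S) + A.q * A.h - (V + R)) (e11 : 0 ≤ NN A - 3 * (A.q * A.h)) : False := by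
  refine h.go (sp := true) (ep := true) hsg hep (g := ppA2b_g) (la := ppA2b_q) ?_ ?_ ppA2b_k
  · obtain ⟨-, -, -, k1, k2, k3, k4, k5, k6, k7, k8, k9, k10⟩ := h
    unfold ppA2b_g env
    simp only [AllNn, dot_cons, dot_nil]
    refine ⟨?_, ?_, ?_, ?_, ?_, ?_, ?_, ?_, ?_, ?_, ?_, ?_, ?_, ?_, ?_, ?_, trivial⟩ <;> linarith
  · unfold ppA2b_q
    repeat' first | exact fnil | refine fcons ?_ ?_
    all_goals (simp only [resG, sgv, dot_cons, dot_nil]; ring)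

theorem c_pmA2b (h : PN A T n j U S a V R b) (hsg : A.sg = -1) (hep : T.ep = 1)
    (e1 : 0 ≤ -U - 2) (e2 : 0 ≤ A.q * A.w - 1 + U) (e3 : 0 ≤ (U + S) - 1) (e4 : 0 ≤ A.q * A.h - 1 - (U + S)) (e5 : 0 ≤ a + th A T.t - A.D - 1) (e6 : 0 ≤ S - A.q * A.w - A.q) (e7 : 0 ≤ R - A.q * A.w) (e8 : 0 ≤ S - A.q * A.w - R) (e9 : 0 ≤ (V + R) - A.q * A.h - 1) (e10 : 0 ≤ (U + S) + A.q * A.h - (V + R)) (e11 : 0 ≤ NN A - 3 * (A.q * A.h)) : False := by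
  refine h.go (sp := false) (ep := true) hsg hep (g := pmA2b_g) (la := pmA2b_q) ?_ ?_ pmA2b_k
  · obtain ⟨-, -, -, k1, k2, k3, k4, k5, k6, k7, k8, k9, k10⟩ := h
    unfold pmA2b_g env
    simp only [AllNn, dot_cons, dot_nil]
    refine ⟨?_, ?_, ?_, ?_, ?_, ?_, ?_, ?_, ?_, ?_, ?_, ?_, ?_, ?_, ?_, ?_, trivial⟩ <;> linarith
  · unfold pmA2b_q
    repeat' first | exact fnil | refine fcons ?_ ?_
    all_goals (simp only [resG, sgv, dot_cons, dot_nil]; ring)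

theorem c_ppA3 (h : PN A T n j U S a V R b) (hsg : A.sg = 1) (hep : T.ep = 1)
    (e1 : 0 ≤ -U - 2) (e2 : 0 ≤ A.q * A.w - 1 + U) (e3 : 0 ≤ (U + S) - 1) (e4 : 0 ≤ A.q * A.h - 1 - (U + S)) (e5 : 0 ≤ a + th A T.t - A.D - 1) (e6 : 0 ≤ S - A.q * A.w - A.q) (e7 : 0 ≤ R - S + A.q * A.w - A.q) (e8 : 0 ≤ A.q * A.h - R) (e9 : 0 ≤ (V + R) - (U + S) - A.q * A.h - 1) (e10 : 0 ≤ NN A - (V + R)) (e11 : 0 ≤ NN A - 3 * (A.q * A.h)) : False := by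
  refine h.go (sp := true) (ep := true) hsg hep (g := ppA3_g) (la := ppA3_q) ?_ ?_ ppA3_k
  · obtain ⟨-, -, -, k1, k2, k3, k4, k5, k6, k7, k8, k9, k10⟩ := h
    unfold ppA3_g env
    simp only [AllNn, dot_cons, dot_nil]
    refine ⟨?_, ?_, ?_, ?_, ?_, ?_, ?_, ?_, ?_, ?_, ?_, ?_, ?_, ?_, ?_, ?_, ?_, trivial⟩ <;> linarith
  · unfold ppA3_q
    repeat' first | exact fnil | refine fcons ?_ ?_
    all_goals (simp only [resG, sgv, dot_cons, dot_nil]; ring)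

theorem c_pmA3 (h : PN A T n j U S a V R b) (hsg : A.sg = -1) (hep : T.ep = 1)
    (e1 : 0 ≤ -U - 2) (e2 : 0 ≤ A.q * A.w - 1 + U) (e3 : 0 ≤ (U + S) - 1) (e4 : 0 ≤ A.q * A.h - 1 - (U + S)) (e5 : 0 ≤ a + th A T.t - A.D - 1) (e6 : 0 ≤ S - A.q * A.w - A.q) (e7 : 0 ≤ R - S + A.q * A.w - A.q) (e8 : 0 ≤ A.q * A.h - R) (e9 : 0 ≤ (V + R) - (U + S) - A.q * A.h - 1) (e10 : 0 ≤ NN A - (V + R)) (e11 : 0 ≤ NN A - 3 * (A.q * A.h)) : False := by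
  refine h.go (sp := false) (ep := true) hsg hep (g := pmA3_g) (la := pmA3_q) ?_ ?_ pmA3_k
  · obtain ⟨-, -, -, k1, k2, k3, k4, k5, k6, k7, k8, k9, k10⟩ := h
    unfold pmA3_g env
    simp only [AllNn, dot_cons, dot_nil]
    refine ⟨?_, ?_, ?_, ?_, ?_, ?_, ?_, ?_, ?_, ?_, ?_, ?_, ?_, ?_, ?_, ?_, ?_, trivial⟩ <;> linarith
  · unfold pmA3_q
    repeat' first | exact fnil | refine fcons ?_ ?_
    all_goals (simp only [resG, sgv, dot_cons, dot_nil]; ring)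

theorem c_ppA4 (h : PN A T n j U S a V R b) (hsg : A.sg = 1) (hep : T.ep = 1)
    (e1 : 0 ≤ -U - 2) (e2 : 0 ≤ A.q * A.w - 1 + U) (e3 : 0 ≤ (U + S) - 1) (e4 : 0 ≤ A.q * A.h - 1 - (U + S)) (e5 : 0 ≤ a + th A T.t - A.D - 1) (e6 : 0 ≤ S - A.q * A.w - A.q) (e7 : 0 ≤ R + A.q) (e8 : 0 ≤ -A.q - R) (e9 : 0 ≤ (V + R) - (U + S) - 1) (e10 : 0 ≤ NN A + U + A.q * A.w - A.q * A.h - (V + R)) (e11 : 0 ≤ NN A - 3 * (A.q * A.h)) : False := by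
  refine h.go (sp := true) (ep := true) hsg hep (g := ppA4_g) (la := ppA4_q) ?_ ?_ ppA4_k
  · obtain ⟨-, -, -, k1, k2, k3, k4, k5, k6, k7, k8, k9, k10⟩ := h
    unfold ppA4_g env
    simp only [AllNn, dot_cons, dot_nil]
    refine ⟨?_, ?_, ?_, ?_, ?_, ?_, ?_, ?_, ?_, ?_, ?_, ?_, ?_, ?_, ?_, ?_, ?_, trivial⟩ <;> linarith
  · unfold ppA4_q
    repeat' first | exact fnil | refine fcons ?_ ?_
    all_goals (simp only [resG, sgv, dot_cons, dot_nil]; ring)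

theorem c_pmA4 (h : PN A T n j U S a V R b) (hsg : A.sg = -1) (hep : T.ep = 1)
    (e1 : 0 ≤ -U - 2) (e2 : 0 ≤ A.q * A.w - 1 + U) (e3 : 0 ≤ (U + S) - 1) (e4 : 0 ≤ A.q * A.h - 1 - (U + S)) (e5 : 0 ≤ a + th A T.t - A.D - 1) (e6 : 0 ≤ S - A.q * A.w - A.q) (e7 : 0 ≤ R + A.q) (e8 : 0 ≤ -A.q - R) (e9 : 0 ≤ (V + R) - (U + S) - 1) (e10 : 0 ≤ NN A + U + A.q * A.w - A.q * A.h - (V + R)) (e11 : 0 ≤ NN A - 3 * (A.q * A.h)) : False := by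
  refine h.go (sp := false) (ep := true) hsg hep (g := pmA4_g) (la := pmA4_q) ?_ ?_ pmA4_k
  · obtain ⟨-, -, -, k1, k2, k3, k4, k5, k6, k7, k8, k9, k10⟩ := h
    unfold pmA4_g env
    simp only [AllNn, dot_cons, dot_nil]
    refine ⟨?_, ?_, ?_, ?_, ?_, ?_, ?_, ?_, ?_, ?_, ?_, ?_, ?_, ?_, ?_, ?_, ?_, trivial⟩ <;> linarith
  · unfold pmA4_q
    repeat' first | exact fnil | refine fcons ?_ ?_
    all_goals (simp only [resG, sgv, dot_cons, dot_nil]; ring)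

theorem c_ppJ1 (h : PN A T n j U S a V R b) (hsg : A.sg = 1) (hep : T.ep = 1)
    (e1 : 0 ≤ -U - 2) (e2 : 0 ≤ A.q * A.w - 1 + U) (e3 : 0 ≤ (U + S) - 1) (e4 : 0 ≤ A.q * A.h - 1 - (U + S)) (e5 : 0 ≤ a + th A T.t - A.D - 1) (e6 : 0 ≤ S - A.q) (e7 : 0 ≤ -S + A.q * A.w) (e8 : 0 ≤ R - A.q) (e9 : 0 ≤ A.q * A.w - A.q - R) (e10 : 0 ≤ (V + R) - (U + S) - A.q * A.h - 1) (e11 : 0 ≤ NN A + (U + S) - (V + R)) (e12 : 0 ≤ NN A - 3 * (A.q * A.h)) : False := by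
  refine h.go (sp := true) (ep := true) hsg hep (g := ppJ1_g) (la := ppJ1_q) ?_ ?_ ppJ1_k
  · obtain ⟨-, -, -, k1, k2, k3, k4, k5, k6, k7, k8, k9, k10⟩ := h
    unfold ppJ1_g env
    simp only [AllNn, dot_cons, dot_nil]
    refine ⟨?_, ?_, ?_, ?_, ?_, ?_, ?_, ?_, ?_, ?_, ?_, ?_, ?_, ?_, ?_, ?_, ?_, trivial⟩ <;> linarith
  · unfold ppJ1_q
    repeat' first | exact fnil | refine fcons ?_ ?_
    all_goals (simp only [resG, sgv, dot_cons, dot_nil]; ring)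

theorem c_pmJ1 (h : PN A T n j U S a V R b) (hsg : A.sg = -1) (hep : T.ep = 1)
    (e1 : 0 ≤ -U - 2) (e2 : 0 ≤ A.q * A.w - 1 + U) (e3 : 0 ≤ (U + S) - 1) (e4 : 0 ≤ A.q * A.h - 1 - (U + S)) (e5 : 0 ≤ a + th A T.t - A.D - 1) (e6 : 0 ≤ S - A.q) (e7 : 0 ≤ -S + A.q * A.w) (e8 : 0 ≤ R - A.q) (e9 : 0 ≤ A.q * A.w - A.q - R) (e10 : 0 ≤ (V + R) - (U + S) - A.q * A.h - 1) (e11 : 0 ≤ NN A + (U + S) - (V + R)) (e12 : 0 ≤ NN A - 3 * (A.q * A.h)) : False := by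
  refine h.go (sp := false) (ep := true) hsg hep (g := pmJ1_g) (la := pmJ1_q) ?_ ?_ pmJ1_k
  · obtain ⟨-, -, -, k1, k2, k3, k4, k5, k6, k7, k8, k9, k10⟩ := h
    unfold pmJ1_g env
    simp only [AllNn, dot_cons, dot_nil]
    refine ⟨?_, ?_, ?_, ?_, ?_, ?_, ?_, ?_, ?_, ?_, ?_, ?_, ?_, ?_, ?_, ?_, ?_, trivial⟩ <;> linarith
  · unfold pmJ1_q
    repeat' first | exact fnil | refine fcons ?_ ?_
    all_goals (simp only [resG, sgv, dot_cons, dot_nil]; ring)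

theorem c_ppJ5 (h : PN A T n j U S a V R b) (hsg : A.sg = 1) (hep : T.ep = 1)
    (e1 : 0 ≤ -U - 2) (e2 : 0 ≤ A.q * A.w - 1 + U) (e3 : 0 ≤ (U + S) - 1) (e4 : 0 ≤ A.q * A.h - 1 - (U + S)) (e5 : 0 ≤ a + th A T.t - A.D - 1) (e6 : 0 ≤ S - A.q) (e7 : 0 ≤ -S + A.q * A.w) (e8 : 0 ≤ R - A.q) (e9 : 0 ≤ NN A - A.q * A.h + S - A.q * A.w - R) (e10 : 0 ≤ (V + R) + A.q * A.h - 1) (e11 : 0 ≤ (U + S) - (V + R)) (e12 : 0 ≤ NN A - 3 * (A.q * A.h)) : False := by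
  refine h.go (sp := true) (ep := true) hsg hep (g := ppJ5_g) (la := ppJ5_q) ?_ ?_ ppJ5_k
  · obtain ⟨-, -, -, k1, k2, k3, k4, k5, k6, k7, k8, k9, k10⟩ := h
    unfold ppJ5_g env
    simp only [AllNn, dot_cons, dot_nil]
    refine ⟨?_, ?_, ?_, ?_, ?_, ?_, ?_, ?_, ?_, ?_, ?_, ?_, ?_, ?_, ?_, ?_, ?_, trivial⟩ <;> linarith
  · unfold ppJ5_q
    repeat' first | exact fnil | refine fcons ?_ ?_
    all_goals (simp only [resG, sgv, dot_cons, dot_nil]; ring)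

theorem c_pmJ5 (h : PN A T n j U S a V R b) (hsg : A.sg = -1) (hep : T.ep = 1)
    (e1 : 0 ≤ -U - 2) (e2 : 0 ≤ A.q * A.w - 1 + U) (e3 : 0 ≤ (U + S) - 1) (e4 : 0 ≤ A.q * A.h - 1 - (U + S)) (e5 : 0 ≤ a + th A T.t - A.D - 1) (e6 : 0 ≤ S - A.q) (e7 : 0 ≤ -S + A.q * A.w) (e8 : 0 ≤ R - A.q) (e9 : 0 ≤ NN A - A.q * A.h + S - A.q * A.w - R) (e10 : 0 ≤ (V + R) + A.q * A.h - 1) (e11 : 0 ≤ (U + S) - (V + R)) (e12 : 0 ≤ NN A - 3 * (A.q * A.h)) : False := by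
  refine h.go (sp := false) (ep := true) hsg hep (g := pmJ5_g) (la := pmJ5_q) ?_ ?_ pmJ5_k
  · obtain ⟨-, -, -, k1, k2, k3, k4, k5, k6, k7, k8, k9, k10⟩ := h
    unfold pmJ5_g env
    simp only [AllNn, dot_cons, dot_nil]
    refine ⟨?_, ?_, ?_, ?_, ?_, ?_, ?_, ?_, ?_, ?_, ?_, ?_, ?_, ?_, ?_, ?_, ?_, trivial⟩ <;> linarith
  · unfold pmJ5_q
    repeat' first | exact fnil | refine fcons ?_ ?_
    all_goals (simp only [resG, sgv, dot_cons, dot_nil]; ring)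

theorem c_ppB1 (h : PN A T n j U S a V R b) (hsg : A.sg = 1) (hep : T.ep = 1)
    (e1 : 0 ≤ -U - 2) (e2 : 0 ≤ A.q * A.w - 1 + U) (e3 : 0 ≤ -(U + S) - 1) (e4 : 0 ≤ (U + S) + A.q * A.h - 1) (e5 : 0 ≤ a + th A T.t - A.D - 1) (e6 : 0 ≤ S + A.q * A.h - A.q * A.w - A.q) (e7 : 0 ≤ -S - A.q) (e8 : 0 ≤ R - A.q) (e9 : 0 ≤ A.q * A.w - A.q - R) (e10 : 0 ≤ (V + R) - (U + S) - A.q * A.h - 1) (e11 : 0 ≤ NN A + (U + S) - (V + R)) (e12 : 0 ≤ NN A - 3 * (A.q * A.h)) : False := by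
  refine h.go (sp := true) (ep := true) hsg hep (g := ppB1_g) (la := ppB1_q) ?_ ?_ ppB1_k
  · obtain ⟨-, -, -, k1, k2, k3, k4, k5, k6, k7, k8, k9, k10⟩ := h
    unfold ppB1_g env
    simp only [AllNn, dot_cons, dot_nil]
    refine ⟨?_, ?_, ?_, ?_, ?_, ?_, ?_, ?_, ?_, ?_, ?_, ?_, ?_, ?_, ?_, ?_, ?_, trivial⟩ <;> linarith
  · unfold ppB1_q
    repeat' first | exact fnil | refine fcons ?_ ?_
    all_goals (simp only [resG, sgv, dot_cons, dot_nil]; ring)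

theorem c_pmB1 (h : PN A T n j U S a V R b) (hsg : A.sg = -1) (hep : T.ep = 1)
    (e1 : 0 ≤ -U - 2) (e2 : 0 ≤ A.q * A.w - 1 + U) (e3 : 0 ≤ -(U + S) - 1) (e4 : 0 ≤ (U + S) + A.q * A.h - 1) (e5 : 0 ≤ a + th A T.t - A.D - 1) (e6 : 0 ≤ S + A.q * A.h - A.q * A.w - A.q) (e7 : 0 ≤ -S - A.q) (e8 : 0 ≤ R - A.q) (e9 : 0 ≤ A.q * A.w - A.q - R) (e10 : 0 ≤ (V + R) - (U + S) - A.q * A.h - 1) (e11 : 0 ≤ NN A + (U + S) - (V + R)) (e12 : 0 ≤ NN A - 3 * (A.q * A.h)) : False := by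
  refine h.go (sp := false) (ep := true) hsg hep (g := pmB1_g) (la := pmB1_q) ?_ ?_ pmB1_k
  · obtain ⟨-, -, -, k1, k2, k3, k4, k5, k6, k7, k8, k9, k10⟩ := h
    unfold pmB1_g env
    simp only [AllNn, dot_cons, dot_nil]
    refine ⟨?_, ?_, ?_, ?_, ?_, ?_, ?_, ?_, ?_, ?_, ?_, ?_, ?_, ?_, ?_, ?_, ?_, trivial⟩ <;> linarith
  · unfold pmB1_q
    repeat' first | exact fnil | refine fcons ?_ ?_
    all_goals (simp only [resG, sgv, dot_cons, dot_nil]; ring)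

theorem c_ppB2 (h : PN A T n j U S a V R b) (hsg : A.sg = 1) (hep : T.ep = 1)
    (e1 : 0 ≤ -U - 2) (e2 : 0 ≤ A.q * A.w - 1 + U) (e3 : 0 ≤ -(U + S) - 1) (e4 : 0 ≤ (U + S) + A.q * A.h - 1) (e5 : 0 ≤ a + th A T.t - A.D - 1) (e6 : 0 ≤ S + A.q * A.h - A.q * A.w - A.q) (e7 : 0 ≤ -S - A.q) (e8 : 0 ≤ R - A.q * A.w) (e9 : 0 ≤ A.q * A.h + S - A.q * A.w - R) (e10 : 0 ≤ (V + R) - U - A.q * A.w - A.q * A.h - 1) (e11 : 0 ≤ NN A + (U + S) - (V + R)) (e12 : 0 ≤ NN A - 3 * (A.q * A.h)) : False := by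
  refine h.go (sp := true) (ep := true) hsg hep (g := ppB2_g) (la := ppB2_q) ?_ ?_ ppB2_k
  · obtain ⟨-, -, -, k1, k2, k3, k4, k5, k6, k7, k8, k9, k10⟩ := h
    unfold ppB2_g env
    simp only [AllNn, dot_cons, dot_nil]
    refine ⟨?_, ?_, ?_, ?_, ?_, ?_, ?_, ?_, ?_, ?_, ?_, ?_, ?_, ?_, ?_, ?_, trivial⟩ <;> linarith
  · unfold ppB2_q
    repeat' first | exact fnil | refine fcons ?_ ?_
    all_goals (simp only [resG, sgv, dot_cons, dot_nil]; ring)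

theorem c_pmB2 (h : PN A T n j U S a V R b) (hsg : A.sg = -1) (hep : T.ep = 1)
    (e1 : 0 ≤ -U - 2) (e2 : 0 ≤ A.q * A.w - 1 + U) (e3 : 0 ≤ -(U + S) - 1) (e4 : 0 ≤ (U + S) + A.q * A.h - 1) (e5 : 0 ≤ a + th A T.t - A.D - 1) (e6 : 0 ≤ S + A.q * A.h - A.q * A.w - A.q) (e7 : 0 ≤ -S - A.q) (e8 : 0 ≤ R - A.q * A.w) (e9 : 0 ≤ A.q * A.h + S - A.q * A.w - R) (e10 : 0 ≤ (V + R) - U - A.q * A.w - A.q * A.h - 1) (e11 : 0 ≤ NN A + (U + S) - (V + R)) (e12 : 0 ≤ NN A - 3 * (A.q * A.h)) : False := by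
  refine h.go (sp := false) (ep := true) hsg hep (g := pmB2_g) (la := pmB2_q) ?_ ?_ pmB2_k
  · obtain ⟨-, -, -, k1, k2, k3, k4, k5, k6, k7, k8, k9, k10⟩ := h
    unfold pmB2_g env
    simp only [AllNn, dot_cons, dot_nil]
    refine ⟨?_, ?_, ?_, ?_, ?_, ?_, ?_, ?_, ?_, ?_, ?_, ?_, ?_, ?_, ?_, ?_, trivial⟩ <;> linarith
  · unfold pmB2_q
    repeat' first | exact fnil | refine fcons ?_ ?_
    all_goals (simp only [resG, sgv, dot_cons, dot_nil]; ring)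

theorem c_ppB3 (h : PN A T n j U S a V R b) (hsg : A.sg = 1) (hep : T.ep = 1)
    (e1 : 0 ≤ -U - 2) (e2 : 0 ≤ A.q * A.w - 1 + U) (e3 : 0 ≤ -(U + S) - 1) (e4 : 0 ≤ (U + S) + A.q * A.h - 1) (e5 : 0 ≤ a + th A T.t - A.D - 1) (e6 : 0 ≤ S + A.q * A.h - A.q * A.w - A.q) (e7 : 0 ≤ -S - A.q) (e8 : 0 ≤ R - A.q * A.h - S + A.q * A.w - A.q) (e9 : 0 ≤ A.q * A.h + A.q * A.w - A.q + S - A.q * A.w - R) (e10 : 0 ≤ (V + R) - U - A.q * A.w - A.q * A.h - 1) (e11 : 0 ≤ NN A - (V + R)) (e12 : 0 ≤ NN A - 3 * (A.q * A.h)) : False := by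
  refine h.go (sp := true) (ep := true) hsg hep (g := ppB3_g) (la := ppB3_q) ?_ ?_ ppB3_k
  · obtain ⟨-, -, -, k1, k2, k3, k4, k5, k6, k7, k8, k9, k10⟩ := h
    unfold ppB3_g env
    simp only [AllNn, dot_cons, dot_nil]
    refine ⟨?_, ?_, ?_, ?_, ?_, ?_, ?_, ?_, ?_, ?_, ?_, ?_, ?_, ?_, ?_, ?_, ?_, trivial⟩ <;> linarith
  · unfold ppB3_q
    repeat' first | exact fnil | refine fcons ?_ ?_
    all_goals (simp only [resG, sgv, dot_cons, dot_nil]; ring)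

theorem c_pmB3 (h : PN A T n j U S a V R b) (hsg : A.sg = -1) (hep : T.ep = 1)
    (e1 : 0 ≤ -U - 2) (e2 : 0 ≤ A.q * A.w - 1 + U) (e3 : 0 ≤ -(U + S) - 1) (e4 : 0 ≤ (U + S) + A.q * A.h - 1) (e5 : 0 ≤ a + th A T.t - A.D - 1) (e6 : 0 ≤ S + A.q * A.h - A.q * A.w - A.q) (e7 : 0 ≤ -S - A.q) (e8 : 0 ≤ R - A.q * A.h - S + A.q * A.w - A.q) (e9 : 0 ≤ A.q * A.h + A.q * A.w - A.q + S - A.q * A.w - R) (e10 : 0 ≤ (V + R) - U - A.q * A.w - A.q * A.h - 1) (e11 : 0 ≤ NN A - (V + R)) (e12 : 0 ≤ NN A - 3 * (A.q * A.h)) : False := by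
  refine h.go (sp := false) (ep := true) hsg hep (g := pmB3_g) (la := pmB3_q) ?_ ?_ pmB3_k
  · obtain ⟨-, -, -, k1, k2, k3, k4, k5, k6, k7, k8, k9, k10⟩ := h
    unfold pmB3_g env
    simp only [AllNn, dot_cons, dot_nil]
    refine ⟨?_, ?_, ?_, ?_, ?_, ?_, ?_, ?_, ?_, ?_, ?_, ?_, ?_, ?_, ?_, ?_, ?_, trivial⟩ <;> linarith
  · unfold pmB3_q
    repeat' first | exact fnil | refine fcons ?_ ?_
    all_goals (simp only [resG, sgv, dot_cons, dot_nil]; ring)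

theorem c_ppB4 (h : PN A T n j U S a V R b) (hsg : A.sg = 1) (hep : T.ep = 1)
    (e1 : 0 ≤ -U - 2) (e2 : 0 ≤ A.q * A.w - 1 + U) (e3 : 0 ≤ -(U + S) - 1) (e4 : 0 ≤ (U + S) + A.q * A.h - 1) (e5 : 0 ≤ a + th A T.t - A.D - 1) (e6 : 0 ≤ S + A.q * A.h - A.q * A.w - A.q) (e7 : 0 ≤ -S - A.q) (e8 : 0 ≤ R - A.q * A.h - A.q * A.w - S + A.q * A.w) (e9 : 0 ≤ A.q * A.h - R) (e10 : 0 ≤ (V + R) + A.q * A.h - 1) (e11 : 0 ≤ -(V + R)) (e12 : 0 ≤ NN A - 3 * (A.q * A.h)) : False := by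
  refine h.go (sp := true) (ep := true) hsg hep (g := ppB4_g) (la := ppB4_q) ?_ ?_ ppB4_k
  · obtain ⟨-, -, -, k1, k2, k3, k4, k5, k6, k7, k8, k9, k10⟩ := h
    unfold ppB4_g env
    simp only [AllNn, dot_cons, dot_nil]
    refine ⟨?_, ?_, ?_, ?_, ?_, ?_, ?_, ?_, ?_, ?_, ?_, ?_, ?_, ?_, ?_, ?_, ?_, trivial⟩ <;> linarith
  · unfold ppB4_q
    repeat' first | exact fnil | refine fcons ?_ ?_
    all_goals (simp only [resG, sgv, dot_cons, dot_nil]; ring)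

theorem c_pmB4 (h : PN A T n j U S a V R b) (hsg : A.sg = -1) (hep : T.ep = 1)
    (e1 : 0 ≤ -U - 2) (e2 : 0 ≤ A.q * A.w - 1 + U) (e3 : 0 ≤ -(U + S) - 1) (e4 : 0 ≤ (U + S) + A.q * A.h - 1) (e5 : 0 ≤ a + th A T.t - A.D - 1) (e6 : 0 ≤ S + A.q * A.h - A.q * A.w - A.q) (e7 : 0 ≤ -S - A.q) (e8 : 0 ≤ R - A.q * A.h - A.q * A.w - S + A.q * A.w) (e9 : 0 ≤ A.q * A.h - R) (e10 : 0 ≤ (V + R) + A.q * A.h - 1) (e11 : 0 ≤ -(V + R)) (e12 : 0 ≤ NN A - 3 * (A.q * A.h)) : False := by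
  refine h.go (sp := false) (ep := true) hsg hep (g := pmB4_g) (la := pmB4_q) ?_ ?_ pmB4_k
  · obtain ⟨-, -, -, k1, k2, k3, k4, k5, k6, k7, k8, k9, k10⟩ := h
    unfold pmB4_g env
    simp only [AllNn, dot_cons, dot_nil]
    refine ⟨?_, ?_, ?_, ?_, ?_, ?_, ?_, ?_, ?_, ?_, ?_, ?_, ?_, ?_, ?_, ?_, ?_, trivial⟩ <;> linarith
  · unfold pmB4_q
    repeat' first | exact fnil | refine fcons ?_ ?_
    all_goals (simp only [resG, sgv, dot_cons, dot_nil]; ring)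

theorem c_ppB5 (h : PN A T n j U S a V R b) (hsg : A.sg = 1) (hep : T.ep = 1)
    (e1 : 0 ≤ -U - 2) (e2 : 0 ≤ A.q * A.w - 1 + U) (e3 : 0 ≤ -(U + S) - 1) (e4 : 0 ≤ (U + S) + A.q * A.h - 1) (e5 : 0 ≤ a + th A T.t - A.D - 1) (e6 : 0 ≤ S + A.q * A.h - A.q * A.w - A.q) (e7 : 0 ≤ -S - A.q) (e8 : 0 ≤ R - A.q) (e9 : 0 ≤ NN A - A.q * A.h + S - A.q * A.w - R) (e10 : 0 ≤ (V + R) + A.q * A.h - 1) (e11 : 0 ≤ (U + S) - (V + R)) (e12 : 0 ≤ NN A - 3 * (A.q * A.h)) : False := by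
  refine h.go (sp := true) (ep := true) hsg hep (g := ppB5_g) (la := ppB5_q) ?_ ?_ ppB5_k
  · obtain ⟨-, -, -, k1, k2, k3, k4, k5, k6, k7, k8, k9, k10⟩ := h
    unfold ppB5_g env
    simp only [AllNn, dot_cons, dot_nil]
    refine ⟨?_, ?_, ?_, ?_, ?_, ?_, ?_, ?_, ?_, ?_, ?_, ?_, ?_, ?_, ?_, ?_, ?_, trivial⟩ <;> linarith
  · unfold ppB5_q
    repeat' first | exact fnil | refine fcons ?_ ?_
    all_goals (simp only [resG, sgv, dot_cons, dot_nil]; ring)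

theorem c_pmB5 (h : PN A T n j U S a V R b) (hsg : A.sg = -1) (hep : T.ep = 1)
    (e1 : 0 ≤ -U - 2) (e2 : 0 ≤ A.q * A.w - 1 + U) (e3 : 0 ≤ -(U + S) - 1) (e4 : 0 ≤ (U + S) + A.q * A.h - 1) (e5 : 0 ≤ a + th A T.t - A.D - 1) (e6 : 0 ≤ S + A.q * A.h - A.q * A.w - A.q) (e7 : 0 ≤ -S - A.q) (e8 : 0 ≤ R - A.q) (e9 : 0 ≤ NN A - A.q * A.h + S - A.q * A.w - R) (e10 : 0 ≤ (V + R) + A.q * A.h - 1) (e11 : 0 ≤ (U + S) - (V + R)) (e12 : 0 ≤ NN A - 3 * (A.q * A.h)) : False := by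
  refine h.go (sp := false) (ep := true) hsg hep (g := pmB5_g) (la := pmB5_q) ?_ ?_ pmB5_k
  · obtain ⟨-, -, -, k1, k2, k3, k4, k5, k6, k7, k8, k9, k10⟩ := h
    unfold pmB5_g env
    simp only [AllNn, dot_cons, dot_nil]
    refine ⟨?_, ?_, ?_, ?_, ?_, ?_, ?_, ?_, ?_, ?_, ?_, ?_, ?_, ?_, ?_, ?_, ?_, trivial⟩ <;> linarith
  · unfold pmB5_q
    repeat' first | exact fnil | refine fcons ?_ ?_
    all_goals (simp only [resG, sgv, dot_cons, dot_nil]; ring)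

theorem c_ppB6 (h : PN A T n j U S a V R b) (hsg : A.sg = 1) (hep : T.ep = 1)
    (e1 : 0 ≤ -U - 2) (e2 : 0 ≤ A.q * A.w - 1 + U) (e3 : 0 ≤ -(U + S) - 1) (e4 : 0 ≤ (U + S) + A.q * A.h - 1) (e5 : 0 ≤ a + th A T.t - A.D - 1) (e6 : 0 ≤ S + A.q * A.h - A.q * A.w - A.q) (e7 : 0 ≤ -S - A.q) (e8 : 0 ≤ R - A.q) (e9 : 0 ≤ A.q - R) (e10 : 0 ≤ (V + R) - (U + S)) (e11 : 0 ≤ -(V + R) - 1) (e12 : 0 ≤ A.D - (V + R) - NN A + A.q * A.h - S + A.q * A.w) (e13 : 0 ≤ NN A - 3 * (A.q * A.h)) : False := by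
  refine h.go (sp := true) (ep := true) hsg hep (g := ppB6_g) (la := ppB6_q) ?_ ?_ ppB6_k
  · obtain ⟨-, -, -, k1, k2, k3, k4, k5, k6, k7, k8, k9, k10⟩ := h
    unfold ppB6_g env
    simp only [AllNn, dot_cons, dot_nil]
    refine ⟨?_, ?_, ?_, ?_, ?_, ?_, ?_, ?_, ?_, ?_, ?_, ?_, ?_, ?_, ?_, ?_, ?_, trivial⟩ <;> linarith
  · unfold ppB6_q
    repeat' first | exact fnil | refine fcons ?_ ?_
    all_goals (simp only [resG, sgv, dot_cons, dot_nil]; ring)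

theorem c_pmB6 (h : PN A T n j U S a V R b) (hsg : A.sg = -1) (hep : T.ep = 1)
    (e1 : 0 ≤ -U - 2) (e2 : 0 ≤ A.q * A.w - 1 + U) (e3 : 0 ≤ -(U + S) - 1) (e4 : 0 ≤ (U + S) + A.q * A.h - 1) (e5 : 0 ≤ a + th A T.t - A.D - 1) (e6 : 0 ≤ S + A.q * A.h - A.q * A.w - A.q) (e7 : 0 ≤ -S - A.q) (e8 : 0 ≤ R - A.q) (e9 : 0 ≤ A.q - R) (e10 : 0 ≤ (V + R) - (U + S)) (e11 : 0 ≤ -(V + R) - 1) (e12 : 0 ≤ A.D - (V + R) - NN A + A.q * A.h - S + A.q * A.w) (e13 : 0 ≤ NN A - 3 * (A.q * A.h)) : False := by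
  refine h.go (sp := false) (ep := true) hsg hep (g := pmB6_g) (la := pmB6_q) ?_ ?_ pmB6_k
  · obtain ⟨-, -, -, k1, k2, k3, k4, k5, k6, k7, k8, k9, k10⟩ := h
    unfold pmB6_g env
    simp only [AllNn, dot_cons, dot_nil]
    refine ⟨?_, ?_, ?_, ?_, ?_, ?_, ?_, ?_, ?_, ?_, ?_, ?_, ?_, ?_, ?_, ?_, ?_, trivial⟩ <;> linarith
  · unfold pmB6_q
    repeat' first | exact fnil | refine fcons ?_ ?_
    all_goals (simp only [resG, sgv, dot_cons, dot_nil]; ring)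

end Pool.Agent.H81.HP
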