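import Pool.Agent.H81.HP.Cells
import Pool.Agent.H78.HL.CaseR

/-!
# The cells in terms of the tie and the class `n`
-/

set_option linter.all false

namespace Pool.Agent.H81.HP

open Pool.Agent.H78.RT
open Pool.Agent.H78.Tie
open Pool.Agent.H78.Tie.TAp
open Pool.Agent.H78.SV
open Pool.Agent.H78.HL (TL OV FT CR Opp W_le_D)

variable {A : TAp} {T : A.Tie} {n j U S c s V R : ℤ}

/-- the standing hypotheses -/
structure MN (T : A.Tie) (n U S : ℤ) : Prop where
  tl : TL T
  o : OV T n U S
  f : FT T n U
  hD : A.D < A.q * A.h
  hN : 3 * (A.q * A.h : ℤ) ≤ NN A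

theorem MN.pn (h : MN T n U S) (cj : IsC A j V R (th A j)) :
    PN A T n j U S (th A n) V R (th A j) := by
  obtain ⟨tl, o, f, hD, hN⟩ := h
  have hq := A.q_pos'
  have hx1 := tl.x1
  have hw := tl.hw
  have cn := o.cn
  rw [abs_lt] at hx1
  have a1 : (A.q : ℤ) * (A.w + T.x) ≤ A.q * A.h :=
    mul_le_mul_of_nonneg_left (by have := le_abs_self T.x; omega) hq.le
  have a2 : (A.q : ℤ) * (A.w - T.x) ≤ A.q * A.h :=
    mul_le_mul_of_nonneg_left (by have := neg_abs_le T.x; omega) hq.le
  refine ⟨?_, cn, cj, th_pos A cn.2.1, th_ltD A cn.2.2, th_pos A cj.2.1, th_ltD A cj.2.2,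
    (W_le_D tl).le, hD, by linarith, by linarith, hN, f.f⟩
  rcases lt_or_gt_of_ne tl.x0 with h0 | h0
  · exact ⟨-1, Or.inr rfl, ⟨tl.F, tl.hs, tl.ht, by omega, by omega⟩⟩
  · exact ⟨1, Or.inl rfl, ⟨tl.F, tl.hs, tl.ht, by omega, by omega⟩⟩

theorem MN.pU (h : MN T n U S) : (A.p : ℤ) ∣ U := by
  have h1 : (A.p : ℤ) ∣ A.a * n - U := (Dvd.intro _ rfl).trans h.o.cn.1.1
  have h2 := dvd_sub (A.hpa.mul_right n) h1
  rwa [sub_sub_cancel] at h2

theorem MN.um (h : MN T n U S) (he : T.ep = -1) : 2 ≤ U ∧ U + 1 ≤ A.q * A.w := by
  have p4 : (4 : ℤ) ≤ A.p := by have := A.w2; have := A.hw; omega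
  have h1 := h.f.u
  rw [he] at h1
  have h2 := Int.le_of_dvd (by linarith) h.pU
  have := h.o.U1
  constructor <;> linarith

theorem MN.up (h : MN T n U S) (he : T.ep = 1) : U ≤ -2 ∧ -(A.q * A.w : ℤ) + 1 ≤ U := by
  have p4 : (4 : ℤ) ≤ A.p := by have := A.w2; have := A.hw; omega
  have h1 := h.f.u
  rw [he] at h1
  have h2 := Int.le_of_dvd (by linarith) ((dvd_neg (α := ℤ)).2 h.pU)
  have := h.o.U0
  constructor <;> linarith

/-- range in the case `I` -/
def EI (T : A.Tie) (U S c s : ℤ) : Prop :=
  (T.ep = -1 ∧ c = U ∧ s = S ∧ A.q ≤ s ∧ S ≤ A.q * A.h - A.q * A.w - A.q) ∨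
  (T.ep = 1 ∧ c = U + A.q * A.w ∧ s = S - A.q * A.w ∧ A.q ≤ s)

/-- range in the case `J` -/
def EJ (T : A.Tie) (U S c s : ℤ) : Prop :=
  T.ep = 1 ∧ c = U + A.q * A.w ∧ s = S - A.q * A.w ∧ s ≤ 0 ∧ A.q ≤ S

/-- range in the case `B` -/
def EB (T : A.Tie) (U S c s : ℤ) : Prop :=
  (T.ep = -1 ∧ c = U ∧ s = S ∧ A.q * A.w - A.q * A.h ≤ S ∧ S ≤ -A.q) ∨
  (T.ep = 1 ∧ c = U + A.q * A.w ∧ s = S - A.q * A.w ∧ A.q * A.w - A.q * A.h + A.q ≤ S ∧ S ≤ -A.q)

theorem A1 (h : MN T n U S) (e : EI T U S c s) (v0 : 0 < c + s)
    (cj : IsC A j (V - R) R (th A j))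
    (r0 : A.q ≤ R) (r1 : R ≤ A.q * A.w - A.q) (h0 : c + s < V) (h1 : V ≤ NN A + (c + s) - A.q * A.h) : False := by
  have p := h.pn cj
  have V0 := h.o.V0
  have V1 := h.o.V1
  have f := h.f.f
  have hN := h.hN
  have hq := A.q_pos'
  rcases e with ⟨he, rfl, rfl, m1, m2⟩ | ⟨he, rfl, rfl, m1⟩
  · obtain ⟨u1, u2⟩ := h.um he
    rcases A.hsg with hg | hg
    · exact c_mpA1 p hg he (by linarith) (by linarith) (by linarith) (by linarith) (by linarith) (by linarith) (by linarith) (by linarith) (by linarith) (by linarith) (by linarith) (by linarith)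
    · exact c_mmA1 p hg he (by linarith) (by linarith) (by linarith) (by linarith) (by linarith) (by linarith) (by linarith) (by linarith) (by linarith) (by linarith) (by linarith) (by linarith)
  · obtain ⟨u1, u2⟩ := h.up he
    rcases A.hsg with hg | hg
    · exact c_ppA1 p hg he (by linarith) (by linarith) (by linarith) (by linarith) (by linarith) (by linarith) (by linarith) (by linarith) (by linarith) (by linarith) (by linarith)
    · exact c_pmA1 p hg he (by linarith) (by linarith) (by linarith) (by linarith) (by linarith) (by linarith) (by linarith) (by linarith) (by linarith) (by linarith) (by linarith)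

theorem A2a (h : MN T n U S) (e : EI T U S c s) (v0 : 0 < c + s)
    (cj : IsC A j (V - R) R (th A j))
    (r0 : A.q * A.w ≤ R) (r1 : R ≤ s) (h0 : -(A.q * A.h) < V) (h1 : V ≤ c + s - A.q * A.h) : False := by
  have p := h.pn cj
  have V0 := h.o.V0
  have V1 := h.o.V1
  have f := h.f.f
  have hN := h.hN
  have hq := A.q_pos'
  rcases e with ⟨he, rfl, rfl, m1, m2⟩ | ⟨he, rfl, rfl, m1⟩
  · obtain ⟨u1, u2⟩ := h.um he
    rcases A.hsg with hg | hg
    · exact c_mpA2a p hg he (by linarith) (by linarith) (by linarith) (by linarith) (by linarith) (by linarith) (by linarith) (by linarith) (by linarith) (by linarith) (by linarith) (by linarith)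
    · exact c_mmA2a p hg he (by linarith) (by linarith) (by linarith) (by linarith) (by linarith) (by linarith) (by linarith) (by linarith) (by linarith) (by linarith) (by linarith) (by linarith)
  · obtain ⟨u1, u2⟩ := h.up he
    rcases A.hsg with hg | hg
    · exact c_ppA2a p hg he (by linarith) (by linarith) (by linarith) (by linarith) (by linarith) (by linarith) (by linarith) (by linarith) (by linarith) (by linarith) (by linarith)
    · exact c_pmA2a p hg he (by linarith) (by linarith) (by linarith) (by linarith) (by linarith) (by linarith) (by linarith) (by linarith) (by linarith) (by linarith) (by linarith)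

theorem A2b (h : MN T n U S) (e : EI T U S c s) (v0 : 0 < c + s)
    (cj : IsC A j (V - R) R (th A j))
    (r0 : A.q * A.w ≤ R) (r1 : R ≤ s) (h0 : A.q * A.h < V) (h1 : V ≤ c + s + A.q * A.h) : False := by
  have p := h.pn cj
  have V0 := h.o.V0
  have V1 := h.o.V1
  have f := h.f.f
  have hN := h.hN
  have hq := A.q_pos'
  rcases e with ⟨he, rfl, rfl, m1, m2⟩ | ⟨he, rfl, rfl, m1⟩
  · obtain ⟨u1, u2⟩ := h.um he
    rcases A.hsg with hg | hg
    · exact c_mpA2b p hg he (by linarith) (by linarith) (by linarith) (by linarith) (by linarith) (by linarith) (by linarith) (by linarith) (by linarith) (by linarith) (by linarith) (by linarith)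
    · exact c_mmA2b p hg he (by linarith) (by linarith) (by linarith) (by linarith) (by linarith) (by linarith) (by linarith) (by linarith) (by linarith) (by linarith) (by linarith) (by linarith)
  · obtain ⟨u1, u2⟩ := h.up he
    rcases A.hsg with hg | hg
    · exact c_ppA2b p hg he (by linarith) (by linarith) (by linarith) (by linarith) (by linarith) (by linarith) (by linarith) (by linarith) (by linarith) (by linarith) (by linarith)
    · exact c_pmA2b p hg he (by linarith) (by linarith) (by linarith) (by linarith) (by linarith) (by linarith) (by linarith) (by linarith) (by linarith) (by linarith) (by linarith)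

theorem A3 (h : MN T n U S) (e : EI T U S c s) (v0 : 0 < c + s)
    (cj : IsC A j (V - R) R (th A j))
    (r0 : s + A.q ≤ R) (r1 : R ≤ A.q * A.h) (h0 : c + s + A.q * A.h < V) (h1 : V ≤ NN A) : False := by
  have p := h.pn cj
  have V0 := h.o.V0
  have V1 := h.o.V1
  have f := h.f.f
  have hN := h.hN
  have hq := A.q_pos'
  rcases e with ⟨he, rfl, rfl, m1, m2⟩ | ⟨he, rfl, rfl, m1⟩
  · obtain ⟨u1, u2⟩ := h.um he
    rcases A.hsg with hg | hg
    · exact c_mpA3 p hg he (by linarith) (by linarith) (by linarith) (by linarith) (by linarith) (by linarith) (by linarith) (by linarith) (by linarith) (by linarith) (by linarith) (by linarith)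
    · exact c_mmA3 p hg he (by linarith) (by linarith) (by linarith) (by linarith) (by linarith) (by linarith) (by linarith) (by linarith) (by linarith) (by linarith) (by linarith) (by linarith)
  · obtain ⟨u1, u2⟩ := h.up he
    rcases A.hsg with hg | hg
    · exact c_ppA3 p hg he (by linarith) (by linarith) (by linarith) (by linarith) (by linarith) (by linarith) (by linarith) (by linarith) (by linarith) (by linarith) (by linarith)
    · exact c_pmA3 p hg he (by linarith) (by linarith) (by linarith) (by linarith) (by linarith) (by linarith) (by linarith) (by linarith) (by linarith) (by linarith) (by linarith)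

theorem A4 (h : MN T n U S) (e : EI T U S c s) (v0 : 0 < c + s)
    (cj : IsC A j (V - R) R (th A j))
    (r0 : R = -A.q) (h0 : c + s < V) (h1 : V ≤ NN A + c - A.q * A.h) : False := by
  have p := h.pn cj
  have V0 := h.o.V0
  have V1 := h.o.V1
  have f := h.f.f
  have hN := h.hN
  have hq := A.q_pos'
  rcases e with ⟨he, rfl, rfl, m1, m2⟩ | ⟨he, rfl, rfl, m1⟩
  · obtain ⟨u1, u2⟩ := h.um he
    rcases A.hsg with hg | hg
    · exact c_mpA4 p hg he (by linarith) (by linarith) (by linarith) (by linarith) (by linarith) (by linarith) (by linarith) (by linarith) (by linarith) (by linarith) (by linarith) (by linarith)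
    · exact c_mmA4 p hg he (by linarith) (by linarith) (by linarith) (by linarith) (by linarith) (by linarith) (by linarith) (by linarith) (by linarith) (by linarith) (by linarith) (by linarith)
  · obtain ⟨u1, u2⟩ := h.up he
    rcases A.hsg with hg | hg
    · exact c_ppA4 p hg he (by linarith) (by linarith) (by linarith) (by linarith) (by linarith) (by linarith) (by linarith) (by linarith) (by linarith) (by linarith) (by linarith)
    · exact c_pmA4 p hg he (by linarith) (by linarith) (by linarith) (by linarith) (by linarith) (by linarith) (by linarith) (by linarith) (by linarith) (by linarith) (by linarith)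

theorem J1 (h : MN T n U S) (e : EJ T U S c s) (v0 : 0 < c + s)
    (cj : IsC A j (V - R) R (th A j))
    (r0 : A.q ≤ R) (r1 : R ≤ A.q * A.w - A.q) (h0 : c + s + A.q * A.h < V) (h1 : V ≤ NN A + (c + s)) : False := by
  have p := h.pn cj
  have V0 := h.o.V0
  have V1 := h.o.V1
  have f := h.f.f
  have hN := h.hN
  have hq := A.q_pos'
  obtain ⟨he, rfl, rfl, m1, m2⟩ := e
  obtain ⟨u1, u2⟩ := h.up he
  rcases A.hsg with hg | hg
  · exact c_ppJ1 p hg he (by linarith) (by linarith) (by linarith) (by linarith) (by linarith) (by linarith) (by linarith) (by linarith) (by linarith) (by linarith) (by linarith) (by linarith)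
  · exact c_pmJ1 p hg he (by linarith) (by linarith) (by linarith) (by linarith) (by linarith) (by linarith) (by linarith) (by linarith) (by linarith) (by linarith) (by linarith) (by linarith)

theorem J5 (h : MN T n U S) (e : EJ T U S c s) (v0 : 0 < c + s)
    (cj : IsC A j (V - R) R (th A j))
    (r0 : A.q ≤ R) (r1 : R ≤ NN A - A.q * A.h + s) (h0 : -(A.q * A.h) < V) (h1 : V ≤ c + s) : False := by
  have p := h.pn cj
  have V0 := h.o.V0
  have V1 := h.o.V1
  have f := h.f.f
  have hN := h.hN
  have hq := A.q_pos'
  obtain ⟨he, rfl, rfl, m1, m2⟩ := e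
  obtain ⟨u1, u2⟩ := h.up he
  rcases A.hsg with hg | hg
  · exact c_ppJ5 p hg he (by linarith) (by linarith) (by linarith) (by linarith) (by linarith) (by linarith) (by linarith) (by linarith) (by linarith) (by linarith) (by linarith) (by linarith)
  · exact c_pmJ5 p hg he (by linarith) (by linarith) (by linarith) (by linarith) (by linarith) (by linarith) (by linarith) (by linarith) (by linarith) (by linarith) (by linarith) (by linarith)

theorem B1 (h : MN T n U S) (e : EB T U S c s) (v0 : c + s < 0)
    (cj : IsC A j (V - R) R (th A j))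
    (r0 : A.q ≤ R) (r1 : R ≤ A.q * A.w - A.q) (h0 : c + s + A.q * A.h < V) (h1 : V ≤ NN A + (c + s)) : False := by
  have p := h.pn cj
  have V0 := h.o.V0
  have V1 := h.o.V1
  have f := h.f.f
  have hN := h.hN
  have hq := A.q_pos'
  rcases e with ⟨he, rfl, rfl, m1, m2⟩ | ⟨he, rfl, rfl, m1, m2⟩
  · obtain ⟨u1, u2⟩ := h.um he
    rcases A.hsg with hg | hg
    · exact c_mpB1 p hg he (by linarith) (by linarith) (by linarith) (by linarith) (by linarith) (by linarith) (by linarith) (by linarith) (by linarith) (by linarith) (by linarith) (by linarith)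
    · exact c_mmB1 p hg he (by linarith) (by linarith) (by linarith) (by linarith) (by linarith) (by linarith) (by linarith) (by linarith) (by linarith) (by linarith) (by linarith) (by linarith)
  · obtain ⟨u1, u2⟩ := h.up he
    rcases A.hsg with hg | hg
    · exact c_ppB1 p hg he (by linarith) (by linarith) (by linarith) (by linarith) (by linarith) (by linarith) (by linarith) (by linarith) (by linarith) (by linarith) (by linarith) (by linarith)
    · exact c_pmB1 p hg he (by linarith) (by linarith) (by linarith) (by linarith) (by linarith) (by linarith) (by linarith) (by linarith) (by linarith) (by linarith) (by linarith) (by linarith)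

theorem B2 (h : MN T n U S) (e : EB T U S c s) (v0 : c + s < 0)
    (cj : IsC A j (V - R) R (th A j))
    (r0 : A.q * A.w ≤ R) (r1 : R ≤ A.q * A.h + s) (h0 : c + A.q * A.h < V) (h1 : V ≤ NN A + (c + s)) : False := by
  have p := h.pn cj
  have V0 := h.o.V0
  have V1 := h.o.V1
  have f := h.f.f
  have hN := h.hN
  have hq := A.q_pos'
  rcases e with ⟨he, rfl, rfl, m1, m2⟩ | ⟨he, rfl, rfl, m1, m2⟩
  · obtain ⟨u1, u2⟩ := h.um he
    rcases A.hsg with hg | hg
    · exact c_mpB2 p hg he (by linarith) (by linarith) (by linarith) (by linarith) (by linarith) (by linarith) (by linarith) (by linarith) (by linarith) (by linarith) (by linarith) (by linarith)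
    · exact c_mmB2 p hg he (by linarith) (by linarith) (by linarith) (by linarith) (by linarith) (by linarith) (by linarith) (by linarith) (by linarith) (by linarith) (by linarith) (by linarith)
  · obtain ⟨u1, u2⟩ := h.up he
    rcases A.hsg with hg | hg
    · exact c_ppB2 p hg he (by linarith) (by linarith) (by linarith) (by linarith) (by linarith) (by linarith) (by linarith) (by linarith) (by linarith) (by linarith) (by linarith) (by linarith)
    · exact c_pmB2 p hg he (by linarith) (by linarith) (by linarith) (by linarith) (by linarith) (by linarith) (by linarith) (by linarith) (by linarith) (by linarith) (by linarith) (by linarith)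

theorem B3 (h : MN T n U S) (e : EB T U S c s) (v0 : c + s < 0)
    (cj : IsC A j (V - R) R (th A j))
    (r0 : A.q * A.h + s + A.q ≤ R) (r1 : R ≤ A.q * A.h + s + A.q * A.w - A.q) (h0 : c + A.q * A.h < V) (h1 : V ≤ NN A) : False := by
  have p := h.pn cj
  have V0 := h.o.V0
  have V1 := h.o.V1
  have f := h.f.f
  have hN := h.hN
  have hq := A.q_pos'
  rcases e with ⟨he, rfl, rfl, m1, m2⟩ | ⟨he, rfl, rfl, m1, m2⟩
  · obtain ⟨u1, u2⟩ := h.um he
    rcases A.hsg with hg | hg
    · exact c_mpB3 p hg he (by linarith) (by linarith) (by linarith) (by linarith) (by linarith) (by linarith) (by linarith) (by linarith) (by linarith) (by linarith) (by linarith) (by linarith)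
    · exact c_mmB3 p hg he (by linarith) (by linarith) (by linarith) (by linarith) (by linarith) (by linarith) (by linarith) (by linarith) (by linarith) (by linarith) (by linarith) (by linarith)
  · obtain ⟨u1, u2⟩ := h.up he
    rcases A.hsg with hg | hg
    · exact c_ppB3 p hg he (by linarith) (by linarith) (by linarith) (by linarith) (by linarith) (by linarith) (by linarith) (by linarith) (by linarith) (by linarith) (by linarith) (by linarith)
    · exact c_pmB3 p hg he (by linarith) (by linarith) (by linarith) (by linarith) (by linarith) (by linarith) (by linarith) (by linarith) (by linarith) (by linarith) (by linarith) (by linarith)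

theorem B4 (h : MN T n U S) (e : EB T U S c s) (v0 : c + s < 0)
    (cj : IsC A j (V - R) R (th A j))
    (r0 : A.q * A.h + s + A.q * A.w ≤ R) (r1 : R ≤ A.q * A.h) (h0 : -(A.q * A.h) < V) (h1 : V ≤ 0) : False := by
  have p := h.pn cj
  have V0 := h.o.V0
  have V1 := h.o.V1
  have f := h.f.f
  have hN := h.hN
  have hq := A.q_pos'
  rcases e with ⟨he, rfl, rfl, m1, m2⟩ | ⟨he, rfl, rfl, m1, m2⟩
  · obtain ⟨u1, u2⟩ := h.um he
    rcases A.hsg with hg | hg
    · exact c_mpB4 p hg he (by linarith) (by linarith) (by linarith) (by linarith) (by linarith) (by linarith) (by linarith) (by linarith) (by linarith) (by linarith) (by linarith) (by linarith)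
    · exact c_mmB4 p hg he (by linarith) (by linarith) (by linarith) (by linarith) (by linarith) (by linarith) (by linarith) (by linarith) (by linarith) (by linarith) (by linarith) (by linarith)
  · obtain ⟨u1, u2⟩ := h.up he
    rcases A.hsg with hg | hg
    · exact c_ppB4 p hg he (by linarith) (by linarith) (by linarith) (by linarith) (by linarith) (by linarith) (by linarith) (by linarith) (by linarith) (by linarith) (by linarith) (by linarith)
    · exact c_pmB4 p hg he (by linarith) (by linarith) (by linarith) (by linarith) (by linarith) (by linarith) (by linarith) (by linarith) (by linarith) (by linarith) (by linarith) (by linarith)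

theorem B5 (h : MN T n U S) (e : EB T U S c s) (v0 : c + s < 0)
    (cj : IsC A j (V - R) R (th A j))
    (r0 : A.q ≤ R) (r1 : R ≤ NN A - A.q * A.h + s) (h0 : -(A.q * A.h) < V) (h1 : V ≤ c + s) : False := by
  have p := h.pn cj
  have V0 := h.o.V0
  have V1 := h.o.V1
  have f := h.f.f
  have hN := h.hN
  have hq := A.q_pos'
  rcases e with ⟨he, rfl, rfl, m1, m2⟩ | ⟨he, rfl, rfl, m1, m2⟩
  · obtain ⟨u1, u2⟩ := h.um he
    rcases A.hsg with hg | hg
    · exact c_mpB5 p hg he (by linarith) (by linarith) (by linarith) (by linarith) (by linarith) (by linarith) (by linarith) (by linarith) (by linarith) (by linarith) (by linarith) (by linarith)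
    · exact c_mmB5 p hg he (by linarith) (by linarith) (by linarith) (by linarith) (by linarith) (by linarith) (by linarith) (by linarith) (by linarith) (by linarith) (by linarith) (by linarith)
  · obtain ⟨u1, u2⟩ := h.up he
    rcases A.hsg with hg | hg
    · exact c_ppB5 p hg he (by linarith) (by linarith) (by linarith) (by linarith) (by linarith) (by linarith) (by linarith) (by linarith) (by linarith) (by linarith) (by linarith) (by linarith)
    · exact c_pmB5 p hg he (by linarith) (by linarith) (by linarith) (by linarith) (by linarith) (by linarith) (by linarith) (by linarith) (by linarith) (by linarith) (by linarith) (by linarith)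

theorem B6 (h : MN T n U S) (e : EB T U S c s) (v0 : c + s < 0)
    (cj : IsC A j (V - R) R (th A j))
    (r0 : R = A.q) (h0 : c + s ≤ V) (h1 : V ≤ -1) (h2 : NN A - A.q * A.h + s ≤ A.D - V) : False := by
  have p := h.pn cj
  have V0 := h.o.V0
  have V1 := h.o.V1
  have f := h.f.f
  have hN := h.hN
  have hq := A.q_pos'
  rcases e with ⟨he, rfl, rfl, m1, m2⟩ | ⟨he, rfl, rfl, m1, m2⟩
  · obtain ⟨u1, u2⟩ := h.um he
    rcases A.hsg with hg | hg
    · exact c_mpB6 p hg he (by linarith) (by linarith) (by linarith) (by linarith) (by linarith) (by linarith) (by linarith) (by linarith) (by linarith) (by linarith) (by linarith) (by linarith) (by linarith)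
    · exact c_mmB6 p hg he (by linarith) (by linarith) (by linarith) (by linarith) (by linarith) (by linarith) (by linarith) (by linarith) (by linarith) (by linarith) (by linarith) (by linarith) (by linarith)
  · obtain ⟨u1, u2⟩ := h.up he
    rcases A.hsg with hg | hg
    · exact c_ppB6 p hg he (by linarith) (by linarith) (by linarith) (by linarith) (by linarith) (by linarith) (by linarith) (by linarith) (by linarith) (by linarith) (by linarith) (by linarith) (by linarith)
    · exact c_pmB6 p hg he (by linarith) (by linarith) (by linarith) (by linarith) (by linarith) (by linarith) (by linarith) (by linarith) (by linarith) (by linarith) (by linarith) (by linarith) (by linarith)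

end Pool.Agent.H81.HP
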